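import Pool.Agent.Q273.QP.LawStm
import Pool.Agent.Q273.TR.Conv
import Pool.Agent.W226.VQ.Main3

/-!
Conversions between polynomials and heights for the project QP (job LAW).
-/

set_option autoImplicit false

open MeasureTheory Polynomial

namespace Pool.Agent.Q223.QP

open Q273.QP

/-- the value at a `p`-adic integer -/
noncomputable def vv (p : Nat.Primes) (η : @PadicInt p.1 ⟨p.2⟩) (f : ℤ[X]) : ℝ :=
  haveI : Fact p.1.Prime := ⟨p.2⟩
  ‖aeval η f‖

/-- the Mahler measure -/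
noncomputable def M (f : ℤ[X]) : ℝ := (f.map (Int.castRingHom ℂ)).mahlerMeasure

lemma M_one {f : ℤ[X]} (hf : f ≠ 0) : 1 ≤ M f := Q273.TR.one_le_mah f hf

lemma height_eq (f : ℤ[X]) : height f = Real.log (M f) / f.natDegree := rfl

lemma height_mul {f : ℤ[X]} (hd : 1 ≤ f.natDegree) :
    (f.natDegree : ℝ) * height f = Real.log (M f) := by
  have : (f.natDegree : ℝ) ≠ 0 := by
    have : f.natDegree ≠ 0 := by omega
    exact_mod_cast this
  rw [height_eq]; field_simp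

lemma height_nonneg {f : ℤ[X]} (hf : f ≠ 0) : 0 ≤ height f :=
  div_nonneg (Real.log_nonneg (M_one hf)) (Nat.cast_nonneg _)

lemma N1_nonneg (S : Finset ℕ) (u v : ℤ) (f : ℤ[X]) : 0 ≤ N1 S u v f :=
  div_nonneg (Finset.sum_nonneg fun p _ => Real.log_natCast_nonneg p) (Nat.cast_nonneg _)

lemma DD0 (f : ℤ[X]) (ξ : ℝ) : Q273.TR.DD 0 f ξ = aeval ξ f := by
  unfold Q273.TR.DD
  rw [hasseDeriv_zero, LinearMap.id_apply, eval_map, aeval_def]
  rfl

lemma proxR_eq (ξ : ℝ) {f : ℤ[X]} (hf : f ≠ 0) (hd : 1 ≤ f.natDegree)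
    (hξ : aeval ξ f ≠ 0) : proxR ξ f =
      (Real.log (M f) - Real.log |aeval ξ f|) / f.natDegree + Real.log (max 1 |ξ|) := by
  have h := Q273.TR.prox_eq ξ hf hd (by rw [DD0]; exact hξ)
  rw [DD0] at h
  exact h

lemma proxP_eq (p : Nat.Primes) (η : @PadicInt p.1 ⟨p.2⟩) (f : ℤ[X]) :
    proxP p η f = -Real.log (vv p η f) / f.natDegree := by
  have h : proxP p η f = Real.log (vv p η f)⁻¹ / f.natDegree := rfl
  rw [h, Real.log_inv]

lemma vv_nonneg (p : Nat.Primes) (η : @PadicInt p.1 ⟨p.2⟩) (f : ℤ[X]) : 0 ≤ vv p η f := by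
  unfold vv
  exact norm_nonneg _

lemma vv_le_one (p : Nat.Primes) (η : @PadicInt p.1 ⟨p.2⟩) (f : ℤ[X]) : vv p η f ≤ 1 := by
  unfold vv
  haveI : Fact p.1.Prime := ⟨p.2⟩
  exact PadicInt.norm_le_one _

/-- the logarithm of the size of the real coordinate -/
noncomputable def L (w : ℝ × ZHat) : ℝ := Real.log (max 1 |w.1|)

lemma L_nonneg (w : ℝ × ZHat) : 0 ≤ L w := Real.log_nonneg (le_max_left _ _)

lemma key {V : Finset Nat.Primes} {w : ℝ × ZHat} {f : ℤ[X]} (hf : f ≠ 0)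
    (hd : 1 ≤ f.natDegree) {B : ℝ} (hB : 0 < B)
    (h : B < |aeval w.1 f| * ∏ p ∈ V, vv p (w.2 p) f) :
    (f.natDegree : ℝ) * prox V w f ≤ Real.log (M f) - Real.log B + f.natDegree * L w := by
  have hd0 : (f.natDegree : ℝ) ≠ 0 := by
    have : f.natDegree ≠ 0 := by omega
    exact_mod_cast this
  have hne : |aeval w.1 f| * ∏ p ∈ V, vv p (w.2 p) f ≠ 0 := (hB.trans h).ne'
  have h1 : |aeval w.1 f| ≠ 0 := left_ne_zero_of_mul hne
  have h2 : ∏ p ∈ V, vv p (w.2 p) f ≠ 0 := right_ne_zero_of_mul hne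
  have h3 : aeval w.1 f ≠ 0 := abs_ne_zero.1 h1
  have h4 := Real.log_le_log hB h.le
  rw [Real.log_mul h1 h2, Real.log_prod (fun p hp => (Finset.prod_ne_zero_iff.1 h2) p hp)] at h4
  unfold prox
  rw [proxR_eq w.1 hf hd h3]
  have h5 : ∑ p ∈ V, proxP p (w.2 p) f = -(∑ p ∈ V, Real.log (vv p (w.2 p) f)) / f.natDegree := by
    rw [← Finset.sum_neg_distrib, Finset.sum_div]
    exact Finset.sum_congr rfl fun p _ => proxP_eq p _ f
  rw [h5]
  have h6 : (f.natDegree : ℝ) * ((Real.log (M f) - Real.log |aeval w.1 f|) / f.natDegree +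
      Real.log (max 1 |w.1|) + -(∑ p ∈ V, Real.log (vv p (w.2 p) f)) / f.natDegree) =
      Real.log (M f) - Real.log |aeval w.1 f| - ∑ p ∈ V, Real.log (vv p (w.2 p) f) +
        f.natDegree * L w := by
    unfold L
    field_simp
    ring
  rw [h6]
  linarith

/-- the proximity function is bounded below -/
lemma prox_ge {V : Finset Nat.Primes} (w : ℝ × ZHat) {f : ℤ[X]} (hf : f ≠ 0)
    (hd : 1 ≤ f.natDegree) : -Real.log 2 ≤ prox V w f := by
  have hd0 : (0 : ℝ) < f.natDegree := by exact_mod_cast hd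
  have h1 : -Real.log 2 ≤ proxR w.1 f := by
    unfold proxR
    rw [le_div_iff₀ hd0]
    have h2 : ((f.map (Int.castRingHom ℂ)).roots.map fun _ => -Real.log 2).sum ≤
        ((f.map (Int.castRingHom ℂ)).roots.map fun z =>
          Real.log (max 1 ‖z‖ * max 1 |w.1| / ‖(w.1 : ℂ) - z‖)).sum := by
      refine Multiset.sum_map_le_sum_map _ _ fun z _ => ?_
      by_cases h0 : ‖(w.1 : ℂ) - z‖ = 0
      · rw [h0, div_zero, Real.log_zero]
        have := Real.log_nonneg one_le_two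
        linarith
      · have h3 : 0 < ‖(w.1 : ℂ) - z‖ := lt_of_le_of_ne (norm_nonneg _) (Ne.symm h0)
        rw [← Real.log_inv]
        refine Real.log_le_log (by norm_num) ?_
        rw [le_div_iff₀ h3]
        have h4 : ‖(w.1 : ℂ) - z‖ ≤ |w.1| + ‖z‖ := by
          refine (norm_sub_le _ _).trans ?_
          rw [Complex.norm_real, Real.norm_eq_abs]
        have h5 : |w.1| ≤ max 1 ‖z‖ * max 1 |w.1| :=
          (le_max_right _ _).trans (le_mul_of_one_le_left (by positivity) (le_max_left _ _))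
        have h6 : ‖z‖ ≤ max 1 ‖z‖ * max 1 |w.1| :=
          (le_max_right _ _).trans (le_mul_of_one_le_right (by positivity) (le_max_left _ _))
        linarith
    rw [Multiset.map_const', Multiset.sum_replicate, nsmul_eq_mul] at h2
    have h3 := Q273.TR.card_roots' f
    rw [h3] at h2
    linarith
  have h2 : 0 ≤ ∑ p ∈ V, proxP p (w.2 p) f := by
    refine Finset.sum_nonneg fun p _ => ?_
    rw [proxP_eq]
    refine div_nonneg ?_ hd0.le
    have := Real.log_nonpos (vv_nonneg p (w.2 p) f) (vv_le_one p (w.2 p) f)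
    linarith
  unfold prox
  linarith

lemma log_Rd_le (S : Finset ℕ) (u v : ℤ) {f : ℤ[X]} (hd : 1 ≤ f.natDegree) :
    Real.log (Rd (hv u v f).natAbs) ≤ f.natDegree * N1 S u v f + ∑ p ∈ S, Real.log p := by
  have hd0 : (f.natDegree : ℝ) ≠ 0 := by
    have : f.natDegree ≠ 0 := by omega
    exact_mod_cast this
  have h := Q273.TR.log_rad_le S (hv u v f)
  have h1 : Rd (hv u v f).natAbs = Q273.TR.rad (hv u v f) := rfl
  rw [h1]
  refine h.trans (le_of_eq ?_)
  unfold N1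
  rw [mul_div_cancel₀ _ hd0]

lemma Rd_pos (n : ℕ) : 0 < Rd n :=
  Finset.prod_pos fun _ hp => (Nat.prime_of_mem_primeFactors hp).pos

lemma op_pos (n : ℕ) : 0 < op n :=
  Finset.prod_pos fun _ hp =>
    (Nat.prime_of_mem_primeFactors (Finset.mem_filter.mp hp).1).pos

lemma sumlog_nonneg (S : Finset ℕ) : 0 ≤ ∑ p ∈ S, Real.log (p : ℝ) :=
  Finset.sum_nonneg fun p _ => Real.log_natCast_nonneg p

lemma aeval_two {R : Type*} [CommRing R] (f : ℤ[X]) (hf : f.natDegree ≤ 2) (x : R) :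
    aeval x f = (f.coeff 2 : R) * x ^ 2 + f.coeff 1 * x + f.coeff 0 := by
  rw [aeval_eq_sum_range' (n := 3) (by omega), Finset.sum_range_succ, Finset.sum_range_succ,
    Finset.sum_range_one]
  simp only [zsmul_eq_mul, pow_zero, mul_one, pow_one]
  ring

lemma aeval_one' {R : Type*} [CommRing R] (f : ℤ[X]) (hf : f.natDegree ≤ 1) (x : R) :
    aeval x f = (f.coeff 1 : R) * x + f.coeff 0 := by
  rw [aeval_eq_sum_range' (n := 2) (by omega), Finset.sum_range_succ, Finset.sum_range_one]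
  simp only [zsmul_eq_mul, pow_zero, mul_one, pow_one]
  ring

lemma hv_two {f : ℤ[X]} (hf : f.natDegree = 2) (u v : ℤ) :
    hv u v f = Fv u v (f.coeff 2, f.coeff 1, f.coeff 0) := by
  unfold hv Fv
  rw [hf, Finset.sum_range_succ, Finset.sum_range_succ, Finset.sum_range_one]
  simp only [Nat.sub_zero, pow_zero, mul_one, pow_one]
  ring

lemma hv_one {f : ℤ[X]} (hf : f.natDegree = 1) (u v : ℤ) :
    hv u v f = Lv u v (f.coeff 1, f.coeff 0) := by
  unfold hv Lv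
  rw [hf, Finset.sum_range_succ, Finset.sum_range_one]
  simp only [Nat.sub_zero, pow_zero, mul_one, pow_one]
  ring

lemma vR_two {f : ℤ[X]} (hf : f.natDegree ≤ 2) (ξ : ℝ) :
    vR (f.coeff 2) (f.coeff 1) (f.coeff 0) ξ = |aeval ξ f| := by
  unfold vR
  rw [aeval_two f hf]

lemma vP_two {f : ℤ[X]} (hf : f.natDegree ≤ 2) (p : Nat.Primes) (η : @PadicInt p.1 ⟨p.2⟩) :
    vP p (f.coeff 2) (f.coeff 1) (f.coeff 0) η = vv p η f := by
  unfold vP vv
  rw [aeval_two f hf]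

lemma lP_one {f : ℤ[X]} (hf : f.natDegree ≤ 1) (p : Nat.Primes) (η : @PadicInt p.1 ⟨p.2⟩) :
    lP p (f.coeff 1) (f.coeff 0) η = vv p η f := by
  unfold lP vv
  rw [aeval_one' f hf]

lemma coeff_le (f : ℤ[X]) (j : ℕ) : (|f.coeff j| : ℝ) ≤ 2 ^ f.natDegree * M f :=
  Pool.Agent.H990R4.VJ.coeff_le f j

lemma natAbs_cast (n : ℤ) : ((n.natAbs : ℕ) : ℝ) = |(n : ℝ)| := by
  rw [Nat.cast_natAbs, Int.cast_abs]

lemma H3_le {f : ℤ[X]} (hf : f.natDegree = 2) :
    (H3 (f.coeff 2, f.coeff 1, f.coeff 0) : ℝ) ≤ 4 * M f := by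
  unfold H3
  rw [Nat.cast_max, Nat.cast_max, natAbs_cast, natAbs_cast, natAbs_cast]
  have h := fun j => coeff_le f j
  rw [hf] at h
  refine max_le (max_le ?_ ?_) ?_
  · have := h 2; norm_num at this ⊢; exact this
  · have := h 1; norm_num at this ⊢; exact this
  · have := h 0; norm_num at this ⊢; exact this

lemma H2_le {f : ℤ[X]} (hf : f.natDegree = 1) :
    (H2 (f.coeff 1, f.coeff 0) : ℝ) ≤ 2 * M f := by
  unfold H2
  rw [Nat.cast_max, natAbs_cast, natAbs_cast]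
  have h := fun j => coeff_le f j
  rw [hf] at h
  refine max_le ?_ ?_
  · have := h 1; norm_num at this ⊢; exact this
  · have := h 0; norm_num at this ⊢; exact this

lemma M_le_sum (f : ℤ[X]) (n : ℕ) (hn : f.natDegree < n) :
    M f ≤ ∑ i ∈ Finset.range n, |((f.coeff i : ℤ) : ℝ)| := by
  have h1 := mahlerMeasure_le_sum_norm_coeff (f.map (Int.castRingHom ℂ))
  rw [sum_over_range' _ (by simp) n (by
    rw [natDegree_map_eq_of_injective (RingHom.injective_int _)]; omega)] at h1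
  refine h1.trans (le_of_eq ?_)
  refine Finset.sum_congr rfl fun a _ => ?_
  rw [coeff_map]
  simp

lemma M_le_H2 {f : ℤ[X]} (hf : f.natDegree = 1) :
    M f ≤ 2 * (H2 (f.coeff 1, f.coeff 0) : ℝ) := by
  refine (M_le_sum f 2 (by omega)).trans ?_
  rw [Finset.sum_range_succ, Finset.sum_range_one]
  unfold H2
  rw [Nat.cast_max, natAbs_cast, natAbs_cast]
  have h1 := le_max_left |((f.coeff 1 : ℤ) : ℝ)| |((f.coeff 0 : ℤ) : ℝ)|
  have h2 := le_max_right |((f.coeff 1 : ℤ) : ℝ)| |((f.coeff 0 : ℤ) : ℝ)|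
  linarith

lemma not_C_dvd {f : ℤ[X]} (hirr : Irreducible f) (hd : 1 ≤ f.natDegree) (p : ℕ)
    (hp : p.Prime) : ¬ C (p : ℤ) ∣ f := by
  intro h
  have hprim : f.IsPrimitive := hirr.isPrimitive (by omega)
  exact (Nat.prime_iff_prime_int.1 hp).not_unit (hprim _ h)

lemma prim_two {f : ℤ[X]} (hirr : Irreducible f) (hd : f.natDegree = 2) :
    Prim (f.coeff 2) (f.coeff 1) (f.coeff 0) := by
  obtain ⟨g, hg⟩ : ∃ g : ℕ, g = Int.gcd (f.coeff 2) (Int.gcd (f.coeff 1) (f.coeff 0)) := ⟨_, rfl⟩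
  have hg1 : g = 1 := by
    by_contra hne
    obtain ⟨p, hp, hpg⟩ := Nat.exists_prime_and_dvd hne
    have h1 : (p : ℤ) ∣ f.coeff 2 := by
      refine dvd_trans ?_ (Int.gcd_dvd_left (f.coeff 2) (Int.gcd (f.coeff 1) (f.coeff 0)))
      rw [← hg]; exact_mod_cast hpg
    have h2 : (p : ℤ) ∣ (Int.gcd (f.coeff 1) (f.coeff 0) : ℤ) := by
      refine dvd_trans ?_ (Int.gcd_dvd_right (f.coeff 2) (Int.gcd (f.coeff 1) (f.coeff 0)))
      rw [← hg]; exact_mod_cast hpg
    have h3 : (p : ℤ) ∣ f.coeff 1 := h2.trans (Int.gcd_dvd_left _ _)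
    have h4 : (p : ℤ) ∣ f.coeff 0 := h2.trans (Int.gcd_dvd_right _ _)
    refine not_C_dvd hirr (by omega) p hp ?_
    rw [C_dvd_iff_dvd_coeff]
    intro i
    by_cases hi : i ≤ 2
    · interval_cases i
      · exact h4
      · exact h3
      · exact h1
    · rw [coeff_eq_zero_of_natDegree_lt (by omega)]; exact dvd_zero _
  have e1 := Int.gcd_eq_gcd_ab (f.coeff 2) (Int.gcd (f.coeff 1) (f.coeff 0))
  have e2 := Int.gcd_eq_gcd_ab (f.coeff 1) (f.coeff 0)
  rw [← hg, hg1] at e1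
  refine ⟨Int.gcdA (f.coeff 2) (Int.gcd (f.coeff 1) (f.coeff 0)),
    Int.gcdA (f.coeff 1) (f.coeff 0) * Int.gcdB (f.coeff 2) (Int.gcd (f.coeff 1) (f.coeff 0)),
    Int.gcdB (f.coeff 1) (f.coeff 0) * Int.gcdB (f.coeff 2) (Int.gcd (f.coeff 1) (f.coeff 0)), ?_⟩
  generalize Int.gcdB (f.coeff 2) (Int.gcd (f.coeff 1) (f.coeff 0)) = t at *
  generalize Int.gcdA (f.coeff 2) (Int.gcd (f.coeff 1) (f.coeff 0)) = r at *
  rw [e2] at e1
  push_cast at e1
  linarith

lemma cop_one {f : ℤ[X]} (hirr : Irreducible f) (hd : f.natDegree = 1) :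
    IsCoprime (f.coeff 1) (f.coeff 0) := by
  rw [Int.isCoprime_iff_gcd_eq_one]
  by_contra hne
  obtain ⟨p, hp, hpg⟩ := Nat.exists_prime_and_dvd hne
  have h2 : (p : ℤ) ∣ (Int.gcd (f.coeff 1) (f.coeff 0) : ℤ) := by exact_mod_cast hpg
  have h3 : (p : ℤ) ∣ f.coeff 1 := h2.trans (Int.gcd_dvd_left _ _)
  have h4 : (p : ℤ) ∣ f.coeff 0 := h2.trans (Int.gcd_dvd_right _ _)
  refine not_C_dvd hirr (by omega) p hp ?_
  rw [C_dvd_iff_dvd_coeff]
  intro i
  by_cases hi : i ≤ 1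
  · interval_cases i
    · exact h4
    · exact h3
  · rw [coeff_eq_zero_of_natDegree_lt (by omega)]; exact dvd_zero _

lemma dsc_two {f : ℤ[X]} (hirr : Irreducible f) (hd : f.natDegree = 2) :
    dsc (f.coeff 2) (f.coeff 1) (f.coeff 0) ≠ 0 := by
  have h := Pool.Agent.W226.VQ.dsc_ne hirr hd
  have e : Pool.Agent.W226.VQ.dsc (Pool.Agent.W226.VQ.cv f) =
      dsc (f.coeff 2) (f.coeff 1) (f.coeff 0) := by
    unfold Pool.Agent.W226.VQ.dsc Pool.Agent.W226.VQ.cv dsc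
    simp only [Fin.val_zero, Fin.val_one, Fin.val_two]
    ring
  rwa [e] at h

lemma logDisc_nonneg (x : ℂ) : 0 ≤ logDisc x := by
  unfold logDisc
  split_ifs with h
  · refine div_nonneg (Real.log_nonneg ?_) (Nat.cast_nonneg _)
    have h1 := NumberField.discr_ne_zero (IntermediateField.adjoin ℚ ({x} : Set ℂ))
    have h2 := Int.one_le_abs h1
    exact_mod_cast h2
  · exact le_rfl

lemma log_op_le {f : ℤ[X]} (hirr : Irreducible f) (hd : f.natDegree = 2) {x : ℂ}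
    (hx : aeval x f = 0) :
    Real.log (op (dsc (f.coeff 2) (f.coeff 1) (f.coeff 0)).natAbs) ≤ 2 * logDisc x := by
  have h := Pool.Agent.W226.VQ.log_op_le f hirr hd x hx
  have e : Pool.Agent.W226.VQ.dsc (Pool.Agent.W226.VQ.cv f) =
      dsc (f.coeff 2) (f.coeff 1) (f.coeff 0) := by
    unfold Pool.Agent.W226.VQ.dsc Pool.Agent.W226.VQ.cv dsc
    simp only [Fin.val_zero, Fin.val_one, Fin.val_two]
    ring
  rw [e] at h
  exact h

end Pool.Agent.Q223.QP
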