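import Pool.Agent.Q223.QP.Laws

/-!
The law (4) of the project QP: divisors of several rational points.
-/

set_option autoImplicit false

open MeasureTheory Polynomial

namespace Pool.Agent.Q223.QP

open Q273.QP

private lemma cinj : Function.Injective (Int.castRingHom ℂ) := Int.cast_injective

/-- the value of the binary form as a product over the roots -/
lemma hv_prod (u v : ℤ) {f : ℤ[X]} (hf : f ≠ 0) :
    ((hv u v f : ℤ) : ℂ) = (f.leadingCoeff : ℂ) *
      ((f.map (Int.castRingHom ℂ)).roots.map fun z => (u : ℂ) - v * z).prod := by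
  by_cases hv0 : v = 0
  · subst hv0
    have h1 : hv u 0 f = f.leadingCoeff * u ^ f.natDegree := by
      unfold hv
      rw [Finset.sum_eq_single f.natDegree]
      · rw [Nat.sub_self, pow_zero, mul_one, coeff_natDegree]
      · intro i hi hne
        have : f.natDegree - i ≠ 0 := by
          have := Finset.mem_range.1 hi
          omega
        rw [zero_pow this, mul_zero]
      · intro h
        exact absurd (Finset.mem_range.2 (Nat.lt_succ_self _)) h
    rw [h1]
    push_cast
    have h2 : ((f.map (Int.castRingHom ℂ)).roots.map fun z => (u : ℂ) - 0 * z) =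
        ((f.map (Int.castRingHom ℂ)).roots.map fun _ => (u : ℂ)) :=
      Multiset.map_congr rfl fun z _ => by ring
    rw [h2, Multiset.map_const', Multiset.prod_replicate, Q273.TR.card_roots']
  · have hvC : (v : ℂ) ≠ 0 := by exact_mod_cast hv0
    have h1 : ((hv u v f : ℤ) : ℂ) = (v : ℂ) ^ f.natDegree *
        (f.map (Int.castRingHom ℂ)).eval ((u : ℂ) / v) := by
      unfold hv
      rw [eval_map, eval₂_eq_sum_range, Finset.mul_sum]
      push_cast
      refine Finset.sum_congr rfl fun i hi => ?_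
      have hi' := Nat.lt_succ_iff.1 (Finset.mem_range.1 hi)
      have e : (v : ℂ) ^ f.natDegree = (v : ℂ) ^ (f.natDegree - i) * (v : ℂ) ^ i := by
        rw [← pow_add, Nat.sub_add_cancel hi']
      rw [e, div_pow]
      have : (v : ℂ) ^ i ≠ 0 := pow_ne_zero _ hvC
      field_simp
      simp [mul_comm]
    have h2 : (f.map (Int.castRingHom ℂ)).eval ((u : ℂ) / v) = (f.leadingCoeff : ℂ) *
        ((f.map (Int.castRingHom ℂ)).roots.map fun z => (u : ℂ) / v - z).prod := by
      have h1 := (IsAlgClosed.splits (f.map (Int.castRingHom ℂ))).eq_prod_roots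
      conv_lhs => rw [h1]
      rw [eval_mul, eval_C, eval_multiset_prod, Multiset.map_map,
        leadingCoeff_map_of_injective cinj]
      congr 2
      refine Multiset.map_congr rfl fun z _ => ?_
      simp
    have h3 : ((f.map (Int.castRingHom ℂ)).roots.map fun z => (u : ℂ) - v * z).prod =
        (v : ℂ) ^ f.natDegree *
          ((f.map (Int.castRingHom ℂ)).roots.map fun z => (u : ℂ) / v - z).prod := by
      have h4 : ((f.map (Int.castRingHom ℂ)).roots.map fun z => (u : ℂ) - v * z) =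
          ((f.map (Int.castRingHom ℂ)).roots.map fun z => (v : ℂ) * ((u : ℂ) / v - z)) :=
        Multiset.map_congr rfl fun z _ => by field_simp
      rw [h4, Multiset.prod_map_mul, Multiset.map_const', Multiset.prod_replicate,
        Q273.TR.card_roots']
    rw [h1, h2, h3]
    ring

/-- the proximity functions of a rational point -/
lemma lam_le {S : Finset ℕ} (hS : ∀ p ∈ S, p.Prime) {u v : ℤ} {f : ℤ[X]} (hf0 : f ≠ 0)
    (hd : 1 ≤ f.natDegree) (hh : hv u v f ≠ 0) :
    lam S u v f ≤ (height f - N1 S u v f) + Real.log (max |(u : ℝ)| |(v : ℝ)|) := by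
  classical
  have hd0 : (0 : ℝ) < f.natDegree := by exact_mod_cast hd
  have hlc : (f.leadingCoeff : ℂ) ≠ 0 := by exact_mod_cast leadingCoeff_ne_zero.2 hf0
  obtain ⟨R, hR⟩ : ∃ R : ℤ, R = hv u v f := ⟨_, rfl⟩
  have hR0 : R ≠ 0 := by rw [hR]; exact hh
  have hprod := hv_prod u v hf0
  rw [← hR] at hprod
  have hne : ∀ z ∈ (f.map (Int.castRingHom ℂ)).roots, ‖(u : ℂ) - v * z‖ ≠ 0 := by
    intro z hz h0
    rw [norm_eq_zero] at h0
    have h1 : ((f.map (Int.castRingHom ℂ)).roots.map fun z => (u : ℂ) - v * z).prod = 0 :=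
      Multiset.prod_eq_zero (Multiset.mem_map.2 ⟨z, hz, h0⟩)
    rw [h1, mul_zero] at hprod
    exact hR0 (by exact_mod_cast hprod)
  have hm1 : ∀ z : ℂ, max 1 ‖z‖ ≠ 0 := fun z => (lt_of_lt_of_le one_pos (le_max_left _ _)).ne'
  have hm2 : max |(u : ℝ)| |(v : ℝ)| ≠ 0 := by
    intro h0
    have h1 : |(u : ℝ)| ≤ 0 := by rw [← h0]; exact le_max_left _ _
    have h2 : |(v : ℝ)| ≤ 0 := by rw [← h0]; exact le_max_right _ _
    have h3 : (u : ℝ) = 0 := abs_nonpos_iff.1 h1
    have h4 : (v : ℝ) = 0 := abs_nonpos_iff.1 h2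
    have h5 : u = 0 := by exact_mod_cast h3
    have h6 : v = 0 := by exact_mod_cast h4
    apply hR0
    rw [hR, h5, h6]
    unfold hv
    refine Finset.sum_eq_zero fun i hi => ?_
    have hi' := Nat.lt_succ_iff.1 (Finset.mem_range.1 hi)
    by_cases h7 : i = 0
    · have : f.natDegree - i ≠ 0 := by omega
      rw [zero_pow this, mul_zero]
    · rw [zero_pow h7, mul_zero, zero_mul]
  have e1 : ((f.map (Int.castRingHom ℂ)).roots.map fun z =>
      Real.log (max 1 ‖z‖ * max |(u : ℝ)| |(v : ℝ)| / ‖(u : ℂ) - v * z‖)).sum =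
      Real.log (M f) + f.natDegree * Real.log (max |(u : ℝ)| |(v : ℝ)|) -
        Real.log |(R : ℝ)| := by
    have h1 : ((f.map (Int.castRingHom ℂ)).roots.map fun z =>
        Real.log (max 1 ‖z‖ * max |(u : ℝ)| |(v : ℝ)| / ‖(u : ℂ) - v * z‖)).sum =
        ((f.map (Int.castRingHom ℂ)).roots.map fun z => (Real.log (max 1 ‖z‖) +
          Real.log (max |(u : ℝ)| |(v : ℝ)|)) - Real.log ‖(u : ℂ) - v * z‖).sum := by
      refine Q273.TR.sum_congr' _ _ _ fun z hz => ?_
      rw [Real.log_div (mul_ne_zero (hm1 z) hm2) (hne z hz), Real.log_mul (hm1 z) hm2]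
    have h2 : |(R : ℝ)| = ‖(f.leadingCoeff : ℂ)‖ *
        ‖((f.map (Int.castRingHom ℂ)).roots.map fun z => (u : ℂ) - v * z).prod‖ := by
      rw [← norm_mul, ← hprod, Complex.norm_intCast]
    have h3 : ‖((f.map (Int.castRingHom ℂ)).roots.map fun z => (u : ℂ) - v * z).prod‖ ≠ 0 := by
      intro h0
      rw [h0, mul_zero, abs_eq_zero] at h2
      exact hR0 (by exact_mod_cast h2)
    rw [h1, Q273.TR.sum_map_sub', Q273.TR.sum_map_add', Q273.TR.log_mah hf0,
      Q273.TR.log_prod _ (fun z => ‖(u : ℂ) - v * z‖) hne,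
      ← Q273.TR.norm_prod' _ (fun z => (u : ℂ) - v * z), h2,
      Real.log_mul (norm_ne_zero_iff.2 hlc) h3, Multiset.map_const', Multiset.sum_replicate,
      Q273.TR.card_roots', nsmul_eq_mul]
    change Real.log (M f) - _ + _ - _ = _
    ring
  -- the arithmetic part
  have e2 : ∑ p ∈ S, (padicValInt p R : ℝ) * Real.log p +
      ∑ p ∈ R.natAbs.primeFactors \ S, Real.log p ≤ Real.log |(R : ℝ)| := by
    have hn : R.natAbs ≠ 0 := Int.natAbs_ne_zero.2 hR0
    have h1 : Real.log |(R : ℝ)| = ∑ p ∈ R.natAbs.primeFactors,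
        (R.natAbs.factorization p : ℝ) * Real.log p := by
      have h2 : |(R : ℝ)| = ((R.natAbs : ℕ) : ℝ) := by rw [Nat.cast_natAbs, Int.cast_abs]
      rw [h2]
      conv_lhs => rw [← Nat.prod_factorization_pow_eq_self hn]
      rw [Finsupp.prod, Nat.support_factorization, Nat.cast_prod, Real.log_prod]
      · refine Finset.sum_congr rfl fun p _ => ?_
        rw [Nat.cast_pow, Real.log_pow]
      · intro p hp
        have := (Nat.prime_of_mem_primeFactors hp).pos
        positivity
    have h2 : ∑ p ∈ S, (padicValInt p R : ℝ) * Real.log p =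
        ∑ p ∈ R.natAbs.primeFactors ∩ S, (R.natAbs.factorization p : ℝ) * Real.log p := by
      symm
      refine Finset.sum_subset_zero_on_sdiff Finset.inter_subset_right ?_ ?_
      · intro p hp
        rw [Finset.mem_sdiff, Finset.mem_inter, not_and'] at hp
        have h3 : p ∉ R.natAbs.primeFactors := hp.2 hp.1
        have h4 : padicValInt p R = 0 := by
          unfold padicValInt
          refine padicValNat.eq_zero_of_not_dvd fun hdvd => h3 ?_
          exact Nat.mem_primeFactors.2 ⟨hS p hp.1, hdvd, hn⟩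
        rw [h4]; simp
      · intro p hp
        rw [Finset.mem_inter] at hp
        have h4 : R.natAbs.factorization p = padicValInt p R := by
          unfold padicValInt
          rw [Nat.factorization_def _ (hS p hp.2)]
        rw [h4]
    rw [h1, h2, ← Finset.sum_sdiff (s₁ := R.natAbs.primeFactors ∩ S)
      (s₂ := R.natAbs.primeFactors) Finset.inter_subset_left, Finset.sdiff_inter_self_left,
      add_comm]
    refine add_le_add (Finset.sum_le_sum fun p hp => ?_) le_rfl
    rw [Finset.mem_sdiff] at hp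
    have h5 : 1 ≤ R.natAbs.factorization p := by
      have h6 := Nat.mem_primeFactors.1 hp.1
      exact (h6.1.dvd_iff_one_le_factorization hn).1 h6.2.1
    have h7 : (1 : ℝ) ≤ (R.natAbs.factorization p : ℝ) := by exact_mod_cast h5
    exact le_mul_of_one_le_left (Real.log_natCast_nonneg p) h7
  have h9 := height_mul (f := f) hd
  unfold lam N1
  rw [e1, ← hR, div_le_iff₀ hd0]
  have e3 : (height f - (∑ p ∈ R.natAbs.primeFactors \ S, Real.log (p : ℝ)) / f.natDegree +
      Real.log (max |(u : ℝ)| |(v : ℝ)|)) * f.natDegree = f.natDegree * height f -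
      (∑ p ∈ R.natAbs.primeFactors \ S, Real.log (p : ℝ)) +
      f.natDegree * Real.log (max |(u : ℝ)| |(v : ℝ)|) := by
    field_simp
  rw [e3, h9]
  linarith

lemma sum_pairs {q : ℕ} (A : Fin q → ℝ) (X : ℝ) (h : ∀ i j, i ≠ j → A i + A j ≤ X) :
    2 * ((q : ℝ) - 1) * ∑ i, A i ≤ q * ((q : ℝ) - 1) * X := by
  classical
  have h1 : ∀ i : Fin q, ((q : ℝ) - 1) * A i + (∑ j, A j - A i) ≤ ((q : ℝ) - 1) * X := by
    intro i
    have hq : 1 ≤ q := by have := i.2; omega
    have h2 : ∑ j ∈ Finset.univ.erase i, (A i + A j) ≤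
        (Finset.univ.erase i : Finset (Fin q)).card • X :=
      Finset.sum_le_card_nsmul _ _ _ fun j hj => h i j (Finset.ne_of_mem_erase hj).symm
    rw [Finset.sum_add_distrib, Finset.sum_const, Finset.card_erase_of_mem (Finset.mem_univ i),
      Finset.card_univ, Fintype.card_fin, nsmul_eq_mul, nsmul_eq_mul, Nat.cast_sub hq,
      Nat.cast_one, Finset.sum_erase_eq_sub (Finset.mem_univ i)] at h2
    exact h2
  have h3 := Finset.sum_le_sum fun (i : Fin q) (_ : i ∈ Finset.univ) => h1 i
  rw [Finset.sum_add_distrib, ← Finset.mul_sum, Finset.sum_sub_distrib, Finset.sum_const,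
    Finset.sum_const, Finset.card_univ, Fintype.card_fin, nsmul_eq_mul, nsmul_eq_mul] at h3
  linarith

/-- the combination of the two laws -/
lemma combine {q : ℕ} (A : Fin q → ℝ) (h m d e K D : ℝ) (hh : 0 ≤ h) (hd : 0 ≤ d) (he : 0 ≤ e)
    (hK : 0 ≤ K) (hD : D = 1 ∨ D = 2) (hm : -Real.log 2 ≤ m)
    (h1 : ∀ i, m + A i ≤ (2 + e) * h + d / 2 + K)
    (h2 : ∀ i j, i ≠ j → m + A i + A j ≤ (D + 1 + e) * h + K)
    (h3 : (3 * (q : ℝ) - 2) * h ≤ (q + 2) * m) :
    ∑ i, A i - 2 * h ≤ d + (q + 2) * e * h + ((q + 2) * K + Real.log 2) := by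
  have hlog := Real.log_nonneg one_le_two
  have hq0 : (0 : ℝ) ≤ q := Nat.cast_nonneg q
  have heh : 0 ≤ e * h := mul_nonneg he hh
  have hqeh : 0 ≤ q * (e * h) := mul_nonneg hq0 heh
  have hqK : 0 ≤ q * K := mul_nonneg hq0 hK
  rcases (by omega : q = 0 ∨ q = 1 ∨ 2 ≤ q) with hq | hq | hq
  · subst hq
    rw [Finset.univ_eq_empty, Finset.sum_empty]
    push_cast
    linarith
  · subst hq
    rw [Fin.sum_univ_one]
    have := h1 0
    push_cast
    nlinarith
  · have hq2 : (2 : ℝ) ≤ q := by exact_mod_cast hq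
    have s1 := sum_pairs A ((D + 1 + e) * h + K - m) fun i j hij => by
      have := h2 i j hij
      linarith
    have s2 : ∑ i, A i ≤ q * ((2 + e) * h + d / 2 + K - m) := by
      have h4 : ∑ i, A i ≤ ∑ _i : Fin q, ((2 + e) * h + d / 2 + K - m) :=
        Finset.sum_le_sum fun i _ => by have := h1 i; linarith
      rw [Finset.sum_const, Finset.card_univ, Fintype.card_fin, nsmul_eq_mul] at h4
      exact h4
    generalize ∑ i, A i = T at s1 s2 ⊢
    have s3 : 2 * T ≤ q * ((D + 1 + e) * h + K - m) := by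
      have h5 : (0 : ℝ) < q - 1 := by linarith
      have h6 : ((q : ℝ) - 1) * (2 * T) ≤ (q - 1) * (q * ((D + 1 + e) * h + K - m)) := by
        linarith
      exact le_of_mul_le_mul_left h6 h5
    rcases hD with hD | hD
    · -- degree one
      subst hD
      have h7 : 2 * (q + 2) * (T - 2 * h) ≤ 2 * (q + 2) * (d + (q + 2) * e * h +
          ((q + 2) * K + Real.log 2)) := by
        have h8 := mul_le_mul_of_nonneg_left s3 (show (0 : ℝ) ≤ q + 2 by linarith)
        have h9 := mul_le_mul_of_nonneg_left h3 hq0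
        have h10 : 0 ≤ (q : ℝ) ^ 2 - 2 * q + 8 := by nlinarith
        have h11 := mul_nonneg h10 hh
        have h12 : 0 ≤ (q + 2) * d := mul_nonneg (by linarith) hd
        have h13 : 0 ≤ (q + 2) * Real.log 2 := mul_nonneg (by linarith) hlog
        have h14 : 0 ≤ (q : ℝ) * (q * (e * h)) := mul_nonneg hq0 hqeh
        have h15 : 0 ≤ (q : ℝ) * (q * K) := mul_nonneg hq0 hqK
        nlinarith
      exact le_of_mul_le_mul_left h7 (by linarith)
    · subst hD
      have h8 := mul_le_mul_of_nonneg_left s3 (show (0 : ℝ) ≤ q - 2 by linarith)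
      have h9 : q * T ≤ q * ((q - 2) / 2 * ((2 + 1 + e) * h + K - m) +
          2 * ((2 + e) * h + d / 2 + K - m)) := by linarith
      have h10 := le_of_mul_le_mul_left h9 (by linarith)
      nlinarith

theorem law4 {V : Finset Nat.Primes} {w : ℝ × ZHat} (hG : Good V w) : Law4 V w := by
  intro S q u v hS huv hij ε hε
  have hq0 : (0 : ℝ) ≤ q := Nat.cast_nonneg q
  obtain ⟨e, he⟩ : ∃ e : ℝ, e = ε / (q + 2) := ⟨_, rfl⟩
  have he0 : 0 < e := by rw [he]; positivity
  have hee : (q + 2) * e = ε := by rw [he]; field_simp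
  choose C1 hC1 using fun i => law1 hG S (u i) (v i) (huv i) e he0
  have h2 : ∀ i j, ∃ C : ℝ, i ≠ j → ∀ (f : ℤ[X]) (x : ℂ), IsPt f x → hv (u i) (v i) f ≠ 0 →
      hv (u j) (v j) f ≠ 0 →
      prox V w f + (height f - N1 S (u i) (v i) f) + (height f - N1 S (u j) (v j) f) ≤
        ((f.natDegree : ℝ) + 1 + e) * height f + C := by
    intro i j
    by_cases h : i = j
    · exact ⟨0, fun h' => absurd h h'⟩
    · have h3 := hij i j h
      obtain ⟨C, hC⟩ := law2 hG S (u i) (v i) (u j) (v j) (by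
        intro h4; apply h3; linarith) e he0
      exact ⟨C, fun _ => hC⟩
  choose C2 hC2 using h2
  obtain ⟨K, hK⟩ : ∃ K : ℝ, K = ∑ i, |C1 i| + ∑ i, ∑ j, |C2 i j| := ⟨_, rfl⟩
  have hK1 : 0 ≤ ∑ i, |C1 i| := Finset.sum_nonneg fun i _ => abs_nonneg _
  have hK2 : 0 ≤ ∑ i, ∑ j, |C2 i j| :=
    Finset.sum_nonneg fun i _ => Finset.sum_nonneg fun j _ => abs_nonneg _
  have hK0 : 0 ≤ K := by rw [hK]; linarith
  have hKi : ∀ i, C1 i ≤ K := fun i => by
    have h3 := Finset.single_le_sum (f := fun i => |C1 i|) (fun i _ => abs_nonneg _)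
      (Finset.mem_univ i)
    have h4 := le_abs_self (C1 i)
    linarith
  have hKij : ∀ i j, C2 i j ≤ K := fun i j => by
    have h3 := Finset.single_le_sum (f := fun i => ∑ j, |C2 i j|)
      (fun i _ => Finset.sum_nonneg fun j _ => abs_nonneg _) (Finset.mem_univ i)
    have h5 := Finset.single_le_sum (f := fun j => |C2 i j|) (fun i _ => abs_nonneg _)
      (Finset.mem_univ j)
    have h4 := le_abs_self (C2 i j)
    linarith
  obtain ⟨Λ, hΛ⟩ : ∃ Λ : ℝ, Λ = ∑ i, Real.log (max |(u i : ℝ)| |(v i : ℝ)|) := ⟨_, rfl⟩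
  refine ⟨((q + 2) * K + Real.log 2) + |Λ|, fun f x hx hne hprox => ?_⟩
  have hirr := hx.1
  have hf0 := hirr.ne_zero
  have hd1 : 1 ≤ f.natDegree := hx.2.1
  have hd2 : f.natDegree ≤ 2 := hx.2.2.1
  have hD : (f.natDegree : ℝ) = 1 ∨ (f.natDegree : ℝ) = 2 := by
    rcases (by omega : f.natDegree = 1 ∨ f.natDegree = 2) with h | h
    · left; rw [h]; norm_num
    · right; rw [h]; norm_num
  have hmain := combine (fun i => height f - N1 S (u i) (v i) f) (height f) (prox V w f)
    (logDisc x) e K f.natDegree (height_nonneg hf0) (logDisc_nonneg x) he0.le hK0 hD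
    (prox_ge w hf0 hd1) (fun i => by
      have h3 := hC1 i f x hx (hne i)
      have h4 := hKi i
      linarith) (fun i j hne' => by
      have h3 := hC2 i j hne' f x hx (hne i) (hne j)
      have h4 := hKij i j
      linarith) hprox
  rw [hee] at hmain
  have hΛ1 := abs_nonneg Λ
  have hΛ2 := le_abs_self Λ
  refine ⟨by linarith, ?_⟩
  have hlam : ∑ i, lam S (u i) (v i) f ≤ ∑ i, (height f - N1 S (u i) (v i) f) + Λ := by
    rw [hΛ, ← Finset.sum_add_distrib]
    exact Finset.sum_le_sum fun i _ => lam_le hS hf0 hd1 (hne i)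
  linarith

end Pool.Agent.Q223.QP
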