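import Pool.Agent.Q223.QP.Law3
import Pool.Agent.Q223.QP.Law4

/-!
Job LAW of the project QP: the laws (1) - (4) hold at almost every adelic point.
-/

set_option autoImplicit false

open MeasureTheory Polynomial

namespace Pool.Agent.Q223.QP

open Q273.QP

lemma ae_imp {α : Type*} [MeasurableSpace α] {μ : Measure α} {P : Prop} {Q : α → Prop}
    (h : P → ∀ᵐ x ∂μ, Q x) : ∀ᵐ x ∂μ, P → Q x := by
  by_cases hP : P
  · filter_upwards [h hP] with x hx _
    exact hx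
  · exact Filter.Eventually.of_forall fun x h' => absurd h' hP

lemma ae_good (h1 : S_T1fin) (h2 : S_T2fin) (h3 : S_L2fin) [MeasurableSpace ZHat]
    [BorelSpace ZHat] (μ : Measure ZHat) [IsFiniteMeasure μ] [μ.IsAddLeftInvariant] :
    ∀ᵐ w : ℝ × ZHat ∂(volume.prod μ), ∀ V : Finset Nat.Primes, Good V w := by
  rw [ae_all_iff]
  intro V
  have a1 : ∀ᵐ w : ℝ × ZHat ∂(volume.prod μ), ∀ (u v : ℤ), IsCoprime u v → ∀ k : ℕ,
      (T1set V u v (1 / ((k : ℝ) + 1)) w).Finite := by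
    rw [ae_all_iff]; intro u
    rw [ae_all_iff]; intro v
    refine ae_imp fun huv => ?_
    rw [ae_all_iff]; intro k
    exact h1 μ V u v _ huv (eps_pos k)
  have a2 : ∀ᵐ w : ℝ × ZHat ∂(volume.prod μ), ∀ (u v u' v' : ℤ), u * v' - u' * v ≠ 0 →
      ∀ k : ℕ, (T2set V u v u' v' (1 / ((k : ℝ) + 1)) w).Finite := by
    rw [ae_all_iff]; intro u
    rw [ae_all_iff]; intro v
    rw [ae_all_iff]; intro u'
    rw [ae_all_iff]; intro v'
    refine ae_imp fun huv => ?_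
    rw [ae_all_iff]; intro k
    exact h2 μ V u v u' v' _ huv (eps_pos k)
  have a3 : ∀ᵐ w : ℝ × ZHat ∂(volume.prod μ), ∀ (u v u' v' : ℤ), u * v' - u' * v ≠ 0 →
      ∀ k : ℕ, (L2set V u v u' v' (1 / ((k : ℝ) + 1)) w).Finite := by
    rw [ae_all_iff]; intro u
    rw [ae_all_iff]; intro v
    rw [ae_all_iff]; intro u'
    rw [ae_all_iff]; intro v'
    refine ae_imp fun huv => ?_
    rw [ae_all_iff]; intro k
    exact h3 μ V u v u' v' _ huv (eps_pos k)
  filter_upwards [a1, a2, a3] with w b1 b2 b3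
  exact ⟨b1, b2, b3⟩

lemma ae_transcendental [MeasurableSpace ZHat] (μ : Measure ZHat) [IsFiniteMeasure μ] :
    ∀ᵐ w : ℝ × ZHat ∂(volume.prod μ), Transcendental ℤ w.1 ∧ Irrational w.1 := by
  have h1 : ∀ᵐ x : ℝ, x ∉ {x : ℝ | IsAlgebraic ℤ x} :=
    (Algebraic.countable ℤ ℝ).ae_notMem volume
  have h2 : ∀ᵐ x : ℝ, x ∉ {x : ℝ | IsAlgebraic ℚ x} :=
    (Algebraic.countable ℚ ℝ).ae_notMem volume
  have h3 : ∀ᵐ x : ℝ, Transcendental ℤ x ∧ Irrational x := by
    filter_upwards [h1, h2] with x hx1 hx2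
    refine ⟨hx1, Transcendental.irrational hx2⟩
  exact Measure.quasiMeasurePreserving_fst.ae h3

/-- job LAW -/
theorem law (h1 : S_T1fin) (h2 : S_T2fin) (h3 : S_L2fin) (h4 : S_PIG) : S_LAWQ := by
  intro _ _ μ _ _
  filter_upwards [ae_good h1 h2 h3 μ, ae_transcendental μ] with w hg ht
  intro V
  exact ⟨law1 (hg V), law2 (hg V), law3 h4 (hg ∅) ht.1 ht.2, law4 (hg V)⟩

end Pool.Agent.Q223.QP
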