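import Pool.Agent.Q223.QP.Laws

/-!
The law (3) of the project QP: the constant in (2) is optimal.
-/

set_option autoImplicit false

open MeasureTheory Polynomial

namespace Pool.Agent.Q223.QP

open Q273.QP

lemma fin_lower {α : Type*} {F : Set α} (hF : F.Finite) (g : α → ℝ) (hg : ∀ x ∈ F, 0 < g x) :
    ∃ κ : ℝ, 0 < κ ∧ ∀ x ∈ F, κ ≤ g x := by
  classical
  have h0 : 0 ≤ ∑ x ∈ hF.toFinset, (g x)⁻¹ :=
    Finset.sum_nonneg fun x hx => (inv_pos.2 (hg x (hF.mem_toFinset.1 hx))).le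
  refine ⟨(1 + ∑ x ∈ hF.toFinset, (g x)⁻¹)⁻¹, by positivity, fun x hx => ?_⟩
  have h1 := Finset.single_le_sum (f := fun x => (g x)⁻¹)
    (fun x hx => (inv_pos.2 (hg x (hF.mem_toFinset.1 hx))).le) (hF.mem_toFinset.2 hx)
  have h2 : (g x)⁻¹ ≤ 1 + ∑ x ∈ hF.toFinset, (g x)⁻¹ := by
    refine h1.trans ?_
    linarith
  have h3 := inv_anti₀ (inv_pos.2 (hg x hx)) h2
  rwa [inv_inv] at h3

lemma Rd_le {n : ℕ} (hn : n ≠ 0) : Rd n ≤ n :=
  Nat.le_of_dvd (Nat.pos_of_ne_zero hn) (Nat.prod_primeFactors_dvd _)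

lemma pf_pow (n i : ℕ) : (n ^ i).primeFactors ⊆ n.primeFactors := by
  intro p hp
  have h := Nat.mem_primeFactors.1 hp
  have hn : n ≠ 0 ∨ i = 0 := by
    by_contra hcon
    push Not at hcon
    apply h.2.2
    rw [hcon.1, zero_pow hcon.2]
  rcases hn with hn | hn
  · exact Nat.mem_primeFactors.2 ⟨h.1, h.1.dvd_of_dvd_pow h.2.1, hn⟩
  · rw [hn, pow_zero] at h
    exact absurd (Nat.dvd_one.1 h.2.1) h.1.one_lt.ne'

lemma Rd_two_pow (i : ℕ) : Rd (2 ^ i) ≤ 2 := by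
  have h : Rd (2 ^ i) ∣ Rd 2 := by
    unfold Rd
    refine Finset.prod_dvd_prod_of_subset _ _ _ ?_
    exact pf_pow _ _
  exact (Nat.le_of_dvd (Rd_pos 2) h).trans (Rd_le (by norm_num))

/-- linear polynomials whose leading coefficient is a power of two have no very small values -/
lemma lin_bound {w : ℝ × ZHat} (hG : Good ∅ w) (ht : Transcendental ℤ w.1) :
    ∃ κ : ℝ, 0 < κ ∧ ∀ q s : ℤ, IsCoprime q s → (∃ i : ℕ, q.natAbs = 2 ^ i) →
      κ ≤ ((q : ℝ) * w.1 + s) ^ 2 * H2 (q, s) := by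
  have hfin := hG.l2 1 0 0 1 (by norm_num) 1
  have hne : ∀ q s : ℤ, q ≠ 0 → (q : ℝ) * w.1 + s ≠ 0 := by
    intro q s hq h0
    rw [transcendental_iff] at ht
    have h1 : aeval w.1 (C q * X + C s : ℤ[X]) = 0 := by
      rw [map_add, map_mul, aeval_C, aeval_C, aeval_X]
      simpa using h0
    have h2 := ht _ h1
    have h3 : (C q * X + C s : ℤ[X]).coeff 1 = 0 := by rw [h2, coeff_zero]
    rw [coeff_add, coeff_C_mul, coeff_X_one, coeff_C, if_neg one_ne_zero, mul_one, add_zero] at h3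
    exact hq h3
  have hH : ∀ q s : ℤ, q ≠ 0 → (1 : ℝ) ≤ H2 (q, s) := by
    intro q s hq
    have h1 : 1 ≤ H2 (q, s) := by
      unfold H2
      have : 1 ≤ q.natAbs := Nat.one_le_iff_ne_zero.2 (Int.natAbs_ne_zero.2 hq)
      exact this.trans (le_max_left _ _)
    exact_mod_cast h1
  obtain ⟨κ, hκ, hκF⟩ := fin_lower (hfin.subset (fun x (hx : x ∈ _ ∧ x.1 ≠ 0) => hx.1))
    (fun x : ℤ × ℤ => ((x.1 : ℝ) * w.1 + x.2) ^ 2) (fun x hx => by
      have := hne x.1 x.2 hx.2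
      positivity)
  have hw : w.1 ≠ 0 := by
    have := hne 1 0 one_ne_zero
    simpa using this
  refine ⟨min κ (min (w.1 ^ 2) (1 / 4)), by positivity, ?_⟩
  rintro q s hqs ⟨i, hi⟩
  have hq0 : q ≠ 0 := by
    intro h0
    rw [h0] at hi
    have : (2 : ℕ) ^ i ≠ 0 := by positivity
    exact this hi.symm
  have h1 := hH q s hq0
  have h10 : (0 : ℝ) < H2 (q, s) := by linarith
  have hv := hne q s hq0
  by_cases hs : s = 0
  · subst hs
    have h2 : IsUnit q := isCoprime_zero_right.1 hqs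
    have h3 : (q : ℝ) ^ 2 = 1 := by
      rcases Int.isUnit_iff.1 h2 with h | h <;> rw [h] <;> norm_num
    refine (min_le_right _ _).trans ((min_le_left _ _).trans ?_)
    rw [Int.cast_zero, add_zero, mul_pow, h3, one_mul]
    exact le_mul_of_one_le_right (by positivity) h1
  · by_cases hmem : (q, s) ∈ L2set ∅ 1 0 0 1 (1 / (((1 : ℕ) : ℝ) + 1)) w
    · refine (min_le_left _ _).trans ((hκF (q, s) ⟨hmem, hq0⟩).trans ?_)
      exact le_mul_of_one_le_right (by positivity) h1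
    · refine (min_le_right _ _).trans ((min_le_right _ _).trans ?_)
      have e1 : Lv 1 0 (q, s) = q := by unfold Lv; ring
      have e2 : Lv 0 1 (q, s) = s := by unfold Lv; ring
      have h3 : 1 / ((Rd q.natAbs : ℝ) * Rd s.natAbs) *
          (H2 (q, s) : ℝ) ^ (1 - 1 / (((1 : ℕ) : ℝ) + 1)) < |(q : ℝ) * w.1 + s| := by
        by_contra hcon
        apply hmem
        refine ⟨hqs, ?_, ?_, ?_⟩
        · rw [e1]; exact hq0
        · rw [e2]; exact hs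
        · rw [e1, e2, Finset.prod_empty, mul_one]
          exact not_lt.1 hcon
      have h4 : (Rd q.natAbs : ℝ) ≤ 2 := by
        rw [hi]; exact_mod_cast Rd_two_pow i
      have h5 : (Rd s.natAbs : ℝ) ≤ H2 (q, s) := by
        have h6 : Rd s.natAbs ≤ H2 (q, s) := by
          unfold H2
          exact (Rd_le (Int.natAbs_ne_zero.2 hs)).trans (le_max_right _ _)
        exact_mod_cast h6
      have h6 : (0 : ℝ) < Rd q.natAbs := by exact_mod_cast Rd_pos _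
      have h7 : (0 : ℝ) < Rd s.natAbs := by exact_mod_cast Rd_pos _
      have h8 : 1 / (2 * (H2 (q, s) : ℝ)) ≤ 1 / ((Rd q.natAbs : ℝ) * Rd s.natAbs) := by
        refine one_div_le_one_div_of_le (by positivity) ?_
        exact mul_le_mul h4 h5 h7.le (by norm_num)
      obtain ⟨t, htt⟩ : ∃ t : ℝ, t = (H2 (q, s) : ℝ) ^ (1 - 1 / (((1 : ℕ) : ℝ) + 1)) := ⟨_, rfl⟩
      have ht0 : 0 < t := by rw [htt]; positivity
      have ht2 : t * t = H2 (q, s) := by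
        rw [htt, ← Real.rpow_add h10]
        norm_num
      rw [← htt] at h3
      have h9 : 1 / (2 * (H2 (q, s) : ℝ)) * t ≤ |(q : ℝ) * w.1 + s| :=
        (mul_le_mul_of_nonneg_right h8 ht0.le).trans h3.le
      have h11 : (1 / (2 * (H2 (q, s) : ℝ)) * t) ^ 2 ≤ ((q : ℝ) * w.1 + s) ^ 2 := by
        rw [← sq_abs ((q : ℝ) * w.1 + s)]
        exact pow_le_pow_left₀ (by positivity) h9 2
      have h12 : (1 / (2 * (H2 (q, s) : ℝ)) * t) ^ 2 * H2 (q, s) = 1 / 4 := by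
        rw [mul_pow, pow_two t, ht2]
        field_simp
        norm_num
      rw [← h12]
      exact mul_le_mul_of_nonneg_right h11 h10.le

lemma cop_of_prim {l : ℤ[X]} (hprim : l.IsPrimitive) (hd : l.natDegree = 1) :
    IsCoprime (l.coeff 1) (l.coeff 0) := by
  rw [Int.isCoprime_iff_gcd_eq_one]
  by_contra hne
  obtain ⟨p, hp, hpg⟩ := Nat.exists_prime_and_dvd hne
  have h2 : (p : ℤ) ∣ (Int.gcd (l.coeff 1) (l.coeff 0) : ℤ) := by exact_mod_cast hpg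
  have h3 : (p : ℤ) ∣ l.coeff 1 := h2.trans (Int.gcd_dvd_left _ _)
  have h4 : (p : ℤ) ∣ l.coeff 0 := h2.trans (Int.gcd_dvd_right _ _)
  have h5 : C (p : ℤ) ∣ l := by
    rw [C_dvd_iff_dvd_coeff]
    intro i
    by_cases hi : i ≤ 1
    · interval_cases i
      · exact h4
      · exact h3
    · rw [coeff_eq_zero_of_natDegree_lt (by omega)]; exact dvd_zero _
  exact (Nat.prime_iff_prime_int.1 hp).not_unit (hprim _ h5)

lemma split {f : ℤ[X]} (hprim : f.IsPrimitive) (hd : f.natDegree = 2)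
    (hnot : ¬ Irreducible f) : ∃ l₁ l₂ : ℤ[X], f = l₁ * l₂ ∧ l₁.natDegree = 1 ∧
      l₂.natDegree = 1 := by
  have hf0 : f ≠ 0 := by
    rintro rfl
    simp at hd
  have hnu : ¬ IsUnit f := by
    intro h
    have := natDegree_eq_zero_of_isUnit h
    omega
  rw [irreducible_iff] at hnot
  push Not at hnot
  obtain ⟨a, b, hab, ha, hb⟩ := hnot hnu
  have ha0 : a ≠ 0 := by rintro rfl; rw [zero_mul] at hab; exact hf0 hab
  have hb0 : b ≠ 0 := by rintro rfl; rw [mul_zero] at hab; exact hf0 hab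
  have hdeg := natDegree_mul ha0 hb0
  rw [← hab, hd] at hdeg
  have h1 : a.natDegree ≠ 0 := by
    intro h0
    apply ha
    rw [eq_C_of_natDegree_eq_zero h0]
    refine isUnit_C.2 (hprim _ ?_)
    rw [← eq_C_of_natDegree_eq_zero h0, hab]
    exact dvd_mul_right _ _
  have h2 : b.natDegree ≠ 0 := by
    intro h0
    apply hb
    rw [eq_C_of_natDegree_eq_zero h0]
    refine isUnit_C.2 (hprim _ ?_)
    rw [← eq_C_of_natDegree_eq_zero h0, hab]
    exact dvd_mul_left _ _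
  exact ⟨a, b, hab, by omega, by omega⟩

/-- the primitive polynomials with small value -/
lemma exists_prim {ξ : ℝ} {C₁ : ℝ} (hC : 0 < C₁) {k : ℕ} {b c : ℤ}
    (hb : |(b : ℝ)| ≤ C₁ * 2 ^ k) (hc : |(c : ℝ)| ≤ C₁ * 2 ^ k)
    (hv : vR (2 ^ k) b c ξ ≤ C₁ / 2 ^ k) :
    ∃ (f : ℤ[X]) (j r : ℕ), k = j + r ∧ f.IsPrimitive ∧ f.natDegree = 2 ∧ f.coeff 2 = 2 ^ r ∧
      M f ≤ 3 * max 1 C₁ * 2 ^ r ∧ |aeval ξ f| ≤ C₁ / (2 ^ k * 2 ^ j) := by
  obtain ⟨g, hg⟩ : ∃ g : ℕ, g = Int.gcd ((2 : ℤ) ^ k) (Int.gcd b c) := ⟨_, rfl⟩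
  have hg1 : (g : ℤ) ∣ 2 ^ k := by rw [hg]; exact Int.gcd_dvd_left _ _
  have hg2 : (g : ℤ) ∣ (Int.gcd b c : ℤ) := by rw [hg]; exact Int.gcd_dvd_right _ _
  have hgb : (g : ℤ) ∣ b := hg2.trans (Int.gcd_dvd_left _ _)
  have hgc : (g : ℤ) ∣ c := hg2.trans (Int.gcd_dvd_right _ _)
  have hg3 : g ∣ 2 ^ k := by exact_mod_cast hg1
  obtain ⟨j, hj, hgj⟩ := (Nat.dvd_prime_pow Nat.prime_two).1 hg3
  obtain ⟨r, hr⟩ := Nat.exists_eq_add_of_le hj
  obtain ⟨b', hb'⟩ := hgb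
  obtain ⟨c', hc'⟩ := hgc
  have hgZ : (g : ℤ) = 2 ^ j := by rw [hgj]; norm_num
  rw [hgZ] at hb' hc'
  have h2j : (0 : ℝ) < 2 ^ j := by positivity
  have hbb : |(b' : ℝ)| ≤ C₁ * 2 ^ r := by
    rw [hb', hr, pow_add] at hb
    push_cast at hb
    rw [abs_mul, abs_of_pos h2j] at hb
    have h1 : (2 : ℝ) ^ j * |(b' : ℝ)| ≤ 2 ^ j * (C₁ * 2 ^ r) := by linarith
    exact le_of_mul_le_mul_left h1 h2j
  have hcc : |(c' : ℝ)| ≤ C₁ * 2 ^ r := by
    rw [hc', hr, pow_add] at hc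
    push_cast at hc
    rw [abs_mul, abs_of_pos h2j] at hc
    have h1 : (2 : ℝ) ^ j * |(c' : ℝ)| ≤ 2 ^ j * (C₁ * 2 ^ r) := by linarith
    exact le_of_mul_le_mul_left h1 h2j
  obtain ⟨f, hf⟩ : ∃ f : ℤ[X], f = C (2 ^ r) * X ^ 2 + C b' * X + C c' := ⟨_, rfl⟩
  have h2r : (2 : ℤ) ^ r ≠ 0 := by positivity
  have hc2 : f.coeff 2 = 2 ^ r := by
    rw [hf]
    simp only [coeff_add, coeff_C_mul, coeff_X_pow, coeff_X, coeff_C]
    norm_num
  have hc1 : f.coeff 1 = b' := by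
    rw [hf]
    simp only [coeff_add, coeff_C_mul, coeff_X_pow, coeff_X, coeff_C]
    norm_num
  have hc0 : f.coeff 0 = c' := by
    rw [hf]
    simp only [coeff_add, coeff_C_mul, coeff_X_pow, coeff_X, coeff_C]
    norm_num
  have hd : f.natDegree = 2 := by rw [hf]; exact natDegree_quadratic h2r
  have hprim : f.IsPrimitive := by
    intro t htf
    rw [C_dvd_iff_dvd_coeff] at htf
    have t2 := htf 2
    have t1 := htf 1
    have t0 := htf 0
    rw [hc2] at t2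
    rw [hc1] at t1
    rw [hc0] at t0
    have h1 : (2 : ℤ) ^ j * t ∣ 2 ^ k := by
      rw [hr, pow_add]; exact mul_dvd_mul_left _ t2
    have h2 : (2 : ℤ) ^ j * t ∣ b := by rw [hb']; exact mul_dvd_mul_left _ t1
    have h3 : (2 : ℤ) ^ j * t ∣ c := by rw [hc']; exact mul_dvd_mul_left _ t0
    have h4 : (2 : ℤ) ^ j * t ∣ (g : ℤ) := by
      rw [hg]
      exact Int.dvd_coe_gcd h1 (Int.dvd_coe_gcd h2 h3)
    rw [hgZ] at h4
    have h5 : (2 : ℤ) ^ j * t ∣ 2 ^ j * 1 := by rwa [mul_one]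
    have h6 := (mul_dvd_mul_iff_left (show (2 : ℤ) ^ j ≠ 0 by positivity)).1 h5
    exact isUnit_of_dvd_one h6
  refine ⟨f, j, r, hr, hprim, hd, hc2, ?_, ?_⟩
  · have h1 := M_le_sum f 3 (by omega)
    rw [Finset.sum_range_succ, Finset.sum_range_succ, Finset.sum_range_one, hc0, hc1, hc2] at h1
    push_cast at h1
    rw [abs_of_pos (show (0 : ℝ) < 2 ^ r by positivity)] at h1
    have h2 : C₁ * 2 ^ r ≤ max 1 C₁ * 2 ^ r :=
      mul_le_mul_of_nonneg_right (le_max_right _ _) (by positivity)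
    have h3 : 1 * (2 : ℝ) ^ r ≤ max 1 C₁ * 2 ^ r :=
      mul_le_mul_of_nonneg_right (le_max_left _ _) (by positivity)
    linarith
  · have h1 : ((2 : ℤ) ^ k : ℤ) = 2 ^ j * 2 ^ r := by rw [hr, pow_add]
    have h2 : vR (2 ^ k) b c ξ = 2 ^ j * |aeval ξ f| := by
      unfold vR
      rw [aeval_two f hd.le, hc2, hc1, hc0, hb', hc', h1]
      push_cast
      rw [← abs_of_pos h2j, ← abs_mul, abs_of_pos h2j]
      congr 1
      ring
    rw [h2] at hv
    rw [le_div_iff₀ (by positivity)]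
    rw [le_div_iff₀ (by positivity)] at hv
    linarith

lemma irr_of_large {w : ℝ × ZHat} {κ : ℝ} (hκ : 0 < κ)
    (hlin : ∀ q s : ℤ, IsCoprime q s → (∃ i : ℕ, q.natAbs = 2 ^ i) →
      κ ≤ ((q : ℝ) * w.1 + s) ^ 2 * H2 (q, s)) {C₁ : ℝ} (hC : 0 < C₁) {k j r : ℕ}
    (hk : k = j + r) {f : ℤ[X]} (hprim : f.IsPrimitive) (hd : f.natDegree = 2)
    (hc2 : f.coeff 2 = 2 ^ r) (hM : M f ≤ 3 * max 1 C₁ * 2 ^ r)
    (hval : |aeval w.1 f| ≤ C₁ / (2 ^ k * 2 ^ j))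
    (hlarge : 12 * C₁ ^ 2 * max 1 C₁ / κ ^ 2 < 2 ^ k) : Irreducible f := by
  by_contra hnot
  obtain ⟨l₁, l₂, hl, h1, h2⟩ := split hprim hd hnot
  have p1 : l₁.IsPrimitive := isPrimitive_of_dvd hprim (by rw [hl]; exact dvd_mul_right _ _)
  have p2 : l₂.IsPrimitive := isPrimitive_of_dvd hprim (by rw [hl]; exact dvd_mul_left _ _)
  have hlc : l₁.coeff 1 * l₂.coeff 1 = 2 ^ r := by
    have h3 : f.leadingCoeff = l₁.leadingCoeff * l₂.leadingCoeff := by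
      rw [hl, leadingCoeff_mul]
    unfold leadingCoeff at h3
    rw [hd, h1, h2, hc2] at h3
    exact h3.symm
  have hn : (l₁.coeff 1).natAbs * (l₂.coeff 1).natAbs = 2 ^ r := by
    rw [← Int.natAbs_mul, hlc, Int.natAbs_pow]
    norm_num
  have q1 : ∃ i : ℕ, (l₁.coeff 1).natAbs = 2 ^ i := by
    obtain ⟨i, _, hi⟩ := (Nat.dvd_prime_pow Nat.prime_two).1 (Dvd.intro _ hn)
    exact ⟨i, hi⟩
  have q2 : ∃ i : ℕ, (l₂.coeff 1).natAbs = 2 ^ i := by
    obtain ⟨i, _, hi⟩ := (Nat.dvd_prime_pow Nat.prime_two).1 (Dvd.intro_left _ hn)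
    exact ⟨i, hi⟩
  have b1 := hlin _ _ (cop_of_prim p1 h1) q1
  have b2 := hlin _ _ (cop_of_prim p2 h2) q2
  have v1 : aeval w.1 l₁ = (l₁.coeff 1 : ℝ) * w.1 + l₁.coeff 0 := aeval_one' l₁ h1.le _
  have v2 : aeval w.1 l₂ = (l₂.coeff 1 : ℝ) * w.1 + l₂.coeff 0 := aeval_one' l₂ h2.le _
  rw [← v1] at b1
  rw [← v2] at b2
  have hMm : M f = M l₁ * M l₂ := by
    unfold M
    rw [hl, Polynomial.map_mul, mahlerMeasure_mul]
  have c1 := H2_le h1
  have c2 := H2_le h2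
  have hval2 : (aeval w.1 l₁) ^ 2 * (aeval w.1 l₂) ^ 2 = (aeval w.1 f) ^ 2 := by
    rw [hl, map_mul]; ring
  obtain ⟨a, ha⟩ : ∃ a : ℝ, a = (H2 (l₁.coeff 1, l₁.coeff 0) : ℝ) := ⟨_, rfl⟩
  obtain ⟨b, hb⟩ : ∃ b : ℝ, b = (H2 (l₂.coeff 1, l₂.coeff 0) : ℝ) := ⟨_, rfl⟩
  rw [← ha] at b1 c1
  rw [← hb] at b2 c2
  have ha0 : 0 ≤ a := by rw [ha]; positivity
  have hb0 : 0 ≤ b := by rw [hb]; positivity
  have d1 : κ * κ ≤ (aeval w.1 f) ^ 2 * (a * b) := by
    have h3 := mul_le_mul b1 b2 hκ.le (by positivity)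
    calc κ * κ ≤ _ := h3
      _ = ((aeval w.1 l₁) ^ 2 * (aeval w.1 l₂) ^ 2) * (a * b) := by ring
      _ = _ := by rw [hval2]
  have hM1 : 0 ≤ M l₁ := mahlerMeasure_nonneg _
  have hM2 : 0 ≤ M l₂ := mahlerMeasure_nonneg _
  have d2 : a * b ≤ 4 * M f := by
    rw [hMm]
    have h3 := mul_le_mul c1 c2 hb0 (by positivity)
    linarith
  have d3 : (aeval w.1 f) ^ 2 ≤ (C₁ / (2 ^ k * 2 ^ j)) ^ 2 := by
    rw [← sq_abs]
    exact pow_le_pow_left₀ (abs_nonneg _) hval 2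
  have hm0 : 0 < max 1 C₁ := lt_of_lt_of_le one_pos (le_max_left _ _)
  have d4 : κ * κ ≤ (C₁ / (2 ^ k * 2 ^ j)) ^ 2 * (12 * max 1 C₁ * 2 ^ r) := by
    have h3 : a * b ≤ 12 * max 1 C₁ * 2 ^ r := by linarith
    exact d1.trans (mul_le_mul d3 h3 (by positivity) (by positivity))
  have e1 : (C₁ / (2 ^ k * 2 ^ j)) ^ 2 * (12 * max 1 C₁ * 2 ^ r) =
      (12 * C₁ ^ 2 * max 1 C₁) / 2 ^ k / ((2 : ℝ) ^ j) ^ 3 := by
    rw [hk, pow_add]
    field_simp
  have e2 : (12 * C₁ ^ 2 * max 1 C₁) / 2 ^ k / ((2 : ℝ) ^ j) ^ 3 ≤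
      (12 * C₁ ^ 2 * max 1 C₁) / 2 ^ k := by
    refine div_le_self (by positivity) ?_
    exact one_le_pow₀ (one_le_pow₀ one_le_two)
  rw [e1] at d4
  have d5 := d4.trans e2
  rw [le_div_iff₀ (by positivity)] at d5
  rw [div_lt_iff₀ (by positivity)] at hlarge
  nlinarith

theorem law3 (h4 : S_PIG) {w : ℝ × ZHat} (hG : Good ∅ w) (ht : Transcendental ℤ w.1)
    (hirrat : Irrational w.1) : Law3 w := by
  obtain ⟨C₁, hC1, hpig⟩ := h4 w.1 hirrat
  obtain ⟨κ, hκ, hlin⟩ := lin_bound hG ht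
  have hm0 : 0 < max 1 C₁ := lt_of_lt_of_le one_pos (le_max_left _ _)
  refine ⟨Real.log (6 * max 1 C₁ * C₁) / 2, fun hfin => ?_⟩
  have hne : ∀ f : ℤ[X], f ≠ 0 → aeval w.1 f ≠ 0 := by
    intro f hf h0
    exact hf ((transcendental_iff.1 ht) f h0)
  obtain ⟨δ, hδ, hδF⟩ := fin_lower hfin (fun f => |aeval w.1 f|) (fun f hf =>
    abs_pos.2 (hne f hf.1.ne_zero))
  obtain ⟨N, hN⟩ := pow_unbounded_of_one_lt (max (12 * C₁ ^ 2 * max 1 C₁ / κ ^ 2) (C₁ / δ))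
    (one_lt_two (α := ℝ))
  obtain ⟨k, b, c, hNk, hb, hc, hvr⟩ := hpig N
  obtain ⟨f, j, r, hk, hprim, hd, hc2, hM, hval⟩ := exists_prim hC1 hb hc hvr
  have hpow : (2 : ℝ) ^ N ≤ 2 ^ k := pow_le_pow_right₀ one_le_two hNk
  have hk1 : 12 * C₁ ^ 2 * max 1 C₁ / κ ^ 2 < 2 ^ k :=
    lt_of_lt_of_le (lt_of_le_of_lt (le_max_left _ _) hN) hpow
  have hk2 : C₁ / δ < 2 ^ k :=
    lt_of_lt_of_le (lt_of_le_of_lt (le_max_right _ _) hN) hpow
  have hirr := irr_of_large hκ hlin hC1 hk hprim hd hc2 hM hval hk1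
  have hf0 := hirr.ne_zero
  have hvne := hne f hf0
  have hvpos : 0 < |aeval w.1 f| := abs_pos.2 hvne
  have hmem : f ∈ {f : ℤ[X] | Irreducible f ∧ f.natDegree = 2 ∧
      3 * height f - Real.log (6 * max 1 C₁ * C₁) / 2 ≤
        proxR w.1 f + (height f - N1 ∅ 1 0 f)} := by
    refine ⟨hirr, hd, ?_⟩
    have hM1 := M_one hf0
    have h9 := height_mul (f := f) (by omega)
    rw [hd] at h9
    push_cast at h9
    have hN1 : N1 ∅ 1 0 f ≤ Real.log 2 / 2 := by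
      unfold N1
      rw [hd]
      push_cast
      refine div_le_div_of_nonneg_right ?_ (by norm_num)
      have e1 : hv 1 0 f = 2 ^ r := by
        rw [hv_two hd]
        unfold Fv
        simp only
        rw [hc2]; ring
      rw [e1, Int.natAbs_pow, Finset.sdiff_empty]
      have e2 : ((2 : ℤ).natAbs ^ r).primeFactors ⊆ {2} := by
        refine (pf_pow _ _).trans ?_
        have : (2 : ℤ).natAbs = 2 := rfl
        rw [this, Nat.Prime.primeFactors Nat.prime_two]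
      refine (Finset.sum_le_sum_of_subset_of_nonneg e2 fun p _ _ =>
        Real.log_natCast_nonneg p).trans ?_
      rw [Finset.sum_singleton]
      norm_num
    have hpr := proxR_eq w.1 hf0 (by omega) hvne
    rw [hd] at hpr
    push_cast at hpr
    have hL := Real.log_nonneg (le_max_left 1 |w.1|)
    have hprod : M f * |aeval w.1 f| ≤ 3 * max 1 C₁ * C₁ := by
      have h3 := mul_le_mul hM hval (abs_nonneg _) (by positivity)
      refine h3.trans ?_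
      have e1 : 3 * max 1 C₁ * 2 ^ r * (C₁ / (2 ^ k * 2 ^ j)) =
          3 * max 1 C₁ * C₁ / ((2 : ℝ) ^ j * 2 ^ j) := by
        rw [hk, pow_add]
        field_simp
      rw [e1]
      refine div_le_self (by positivity) ?_
      have h5 : (1 : ℝ) ≤ 2 ^ j := one_le_pow₀ one_le_two
      nlinarith
    have hlog := Real.log_le_log (by positivity) hprod
    rw [Real.log_mul (by linarith) hvpos.ne'] at hlog
    have hlog6 : Real.log (6 * max 1 C₁ * C₁) = Real.log 2 + Real.log (3 * max 1 C₁ * C₁) := by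
      rw [← Real.log_mul (by norm_num) (by positivity)]
      congr 1
      ring
    rw [hpr, hlog6]
    linarith
  have h1 := hδF f hmem
  have h2 : C₁ / (2 ^ k * 2 ^ j) ≤ C₁ / 2 ^ k := by
    refine div_le_div_of_nonneg_left hC1.le (by positivity) ?_
    exact le_mul_of_one_le_right (by positivity) (one_le_pow₀ one_le_two)
  have h3 : C₁ / 2 ^ k < δ := by
    rw [div_lt_iff₀ hδ] at hk2
    rw [div_lt_iff₀ (by positivity)]
    linarith
  linarith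

end Pool.Agent.Q223.QP
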