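import Pool.Agent.Q223.QP.Conv

/-!
The laws (1), (2), (4) of the project QP from the finiteness theorems, for a fixed adelic point.
-/

set_option autoImplicit false

open MeasureTheory Polynomial

namespace Pool.Agent.Q223.QP

open Q273.QP

/-- exceptional quadratic polynomials, one rational point -/
def T1set (V : Finset Nat.Primes) (u v : ℤ) (ε : ℝ) (w : ℝ × ZHat) : Set (ℤ × ℤ × ℤ) :=
  {x : ℤ × ℤ × ℤ | Prim x.1 x.2.1 x.2.2 ∧
      dsc x.1 x.2.1 x.2.2 ≠ 0 ∧ Fv u v x ≠ 0 ∧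
      vR x.1 x.2.1 x.2.2 w.1 * ∏ p ∈ V, vP p x.1 x.2.1 x.2.2 (w.2 p) ≤
        1 / ((Rd (Fv u v x).natAbs : ℝ) * Real.sqrt (op (dsc x.1 x.2.1 x.2.2).natAbs)) *
          (H3 x : ℝ) ^ (-ε)}

/-- exceptional quadratic polynomials, two rational points -/
def T2set (V : Finset Nat.Primes) (u v u' v' : ℤ) (ε : ℝ) (w : ℝ × ZHat) : Set (ℤ × ℤ × ℤ) :=
  {x : ℤ × ℤ × ℤ | Prim x.1 x.2.1 x.2.2 ∧ x.1 ≠ 0 ∧
      dsc x.1 x.2.1 x.2.2 ≠ 0 ∧ Fv u v x ≠ 0 ∧ Fv u' v' x ≠ 0 ∧
      vR x.1 x.2.1 x.2.2 w.1 * ∏ p ∈ V, vP p x.1 x.2.1 x.2.2 (w.2 p) ≤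
        1 / ((Rd (Fv u v x).natAbs : ℝ) * Rd (Fv u' v' x).natAbs) * (H3 x : ℝ) ^ (-ε)}

/-- exceptional linear polynomials -/
def L2set (V : Finset Nat.Primes) (u v u' v' : ℤ) (ε : ℝ) (w : ℝ × ZHat) : Set (ℤ × ℤ) :=
  {x : ℤ × ℤ | IsCoprime x.1 x.2 ∧
      Lv u v x ≠ 0 ∧ Lv u' v' x ≠ 0 ∧
      |(x.1 : ℝ) * w.1 + x.2| * ∏ p ∈ V, lP p x.1 x.2 (w.2 p) ≤
        1 / ((Rd (Lv u v x).natAbs : ℝ) * Rd (Lv u' v' x).natAbs) * (H2 x : ℝ) ^ (1 - ε)}

/-- the adelic point is not in the exceptional sets -/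
structure Good (V : Finset Nat.Primes) (w : ℝ × ZHat) : Prop where
  t1 : ∀ (u v : ℤ), IsCoprime u v → ∀ k : ℕ, (T1set V u v (1 / ((k : ℝ) + 1)) w).Finite
  t2 : ∀ (u v u' v' : ℤ), u * v' - u' * v ≠ 0 → ∀ k : ℕ,
    (T2set V u v u' v' (1 / ((k : ℝ) + 1)) w).Finite
  l2 : ∀ (u v u' v' : ℤ), u * v' - u' * v ≠ 0 → ∀ k : ℕ,
    (L2set V u v u' v' (1 / ((k : ℝ) + 1)) w).Finite

/-- the coefficients of a quadratic polynomial -/
def tr (f : ℤ[X]) : ℤ × ℤ × ℤ := (f.coeff 2, f.coeff 1, f.coeff 0)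

/-- the coefficients of a linear polynomial -/
def pr (f : ℤ[X]) : ℤ × ℤ := (f.coeff 1, f.coeff 0)

lemma fin_tr {F : Set (ℤ × ℤ × ℤ)} (hF : F.Finite) :
    {f : ℤ[X] | f.natDegree = 2 ∧ tr f ∈ F}.Finite := by
  refine Set.Finite.of_finite_image (f := tr) (hF.subset ?_) ?_
  · rintro _ ⟨f, hf, rfl⟩; exact hf.2
  · intro f hf g hg h
    have hf2 : f.natDegree = 2 := hf.1
    have hg2 : g.natDegree = 2 := hg.1
    simp only [tr, Prod.mk.injEq] at h
    ext i
    by_cases hi : i ≤ 2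
    · interval_cases i
      · exact h.2.2
      · exact h.2.1
      · exact h.1
    · rw [coeff_eq_zero_of_natDegree_lt (by omega), coeff_eq_zero_of_natDegree_lt (by omega)]

lemma fin_pr {F : Set (ℤ × ℤ)} (hF : F.Finite) :
    {f : ℤ[X] | f.natDegree = 1 ∧ pr f ∈ F}.Finite := by
  refine Set.Finite.of_finite_image (f := pr) (hF.subset ?_) ?_
  · rintro _ ⟨f, hf, rfl⟩; exact hf.2
  · intro f hf g hg h
    have hf2 : f.natDegree = 1 := hf.1
    have hg2 : g.natDegree = 1 := hg.1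
    simp only [pr, Prod.mk.injEq] at h
    ext i
    by_cases hi : i ≤ 1
    · interval_cases i
      · exact h.2
      · exact h.1
    · rw [coeff_eq_zero_of_natDegree_lt (by omega), coeff_eq_zero_of_natDegree_lt (by omega)]

lemma absorb {P : ℤ[X] → ℂ → Prop} {exc : ℤ[X] → ℝ} {g : ℂ → ℝ} (hg : ∀ x, 0 ≤ g x)
    {F : Set ℤ[X]} (hF : F.Finite) {C₀ : ℝ} (h : ∀ f x, P f x → f ∉ F → exc f ≤ g x + C₀) :
    ∃ C : ℝ, ∀ f x, P f x → exc f ≤ g x + C := by
  classical
  refine ⟨|C₀| + ∑ f ∈ hF.toFinset, |exc f|, fun f x hP => ?_⟩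
  have h0 : 0 ≤ ∑ f ∈ hF.toFinset, |exc f| := Finset.sum_nonneg fun _ _ => abs_nonneg _
  by_cases hf : f ∈ F
  · have h1 := Finset.single_le_sum (f := fun f => |exc f|) (fun _ _ => abs_nonneg _)
      (hF.mem_toFinset.2 hf)
    have h2 := le_abs_self (exc f)
    have h3 := hg x
    have h4 := abs_nonneg C₀
    linarith
  · have h1 := h f x hP hf
    have h2 := le_abs_self C₀
    linarith

lemma H3_pos {f : ℤ[X]} (hf : f ≠ 0) (hd : f.natDegree = 2) : (1 : ℝ) ≤ H3 (tr f) := by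
  have h : f.coeff 2 ≠ 0 := by
    rw [← hd, coeff_natDegree, leadingCoeff_ne_zero]; exact hf
  have h1 : 1 ≤ H3 (tr f) := by
    unfold H3 tr
    have : 1 ≤ (f.coeff 2).natAbs := Nat.one_le_iff_ne_zero.2 (Int.natAbs_ne_zero.2 h)
    exact this.trans ((le_max_left _ _).trans (le_max_left _ _))
  exact_mod_cast h1

lemma H2_pos {f : ℤ[X]} (hf : f ≠ 0) (hd : f.natDegree = 1) : (1 : ℝ) ≤ H2 (pr f) := by
  have h : f.coeff 1 ≠ 0 := by
    rw [← hd, coeff_natDegree, leadingCoeff_ne_zero]; exact hf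
  have h1 : 1 ≤ H2 (pr f) := by
    unfold H2 pr
    have : 1 ≤ (f.coeff 1).natAbs := Nat.one_le_iff_ne_zero.2 (Int.natAbs_ne_zero.2 h)
    exact this.trans (le_max_left _ _)
  exact_mod_cast h1

lemma eps_pos (k : ℕ) : (0 : ℝ) < 1 / ((k : ℝ) + 1) := by positivity

lemma eps_le (k : ℕ) : (1 : ℝ) / ((k : ℝ) + 1) ≤ 1 := by
  rw [div_le_one (by positivity)]
  have : (0 : ℝ) ≤ k := Nat.cast_nonneg k
  linarith

/-- the quadratic case of (1) -/
lemma law1_two {V : Finset Nat.Primes} {w : ℝ × ZHat} (hG : Good V w) (S : Finset ℕ) (u v : ℤ)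
    (huv : IsCoprime u v) (k : ℕ) {f : ℤ[X]} {x : ℂ} (hirr : Irreducible f)
    (hd : f.natDegree = 2) (hx : aeval x f = 0) (hh : hv u v f ≠ 0)
    (hmem : f ∉ {f : ℤ[X] | f.natDegree = 2 ∧ tr f ∈ T1set V u v (1 / ((k : ℝ) + 1)) w}) :
    prox V w f + (height f - N1 S u v f) - (2 + 1 / ((k : ℝ) + 1)) * height f ≤
      logDisc x / 2 + (∑ p ∈ S, Real.log (p : ℝ) + Real.log 2 + L w) := by
  have hf0 := hirr.ne_zero
  obtain ⟨e, he⟩ : ∃ e : ℝ, e = 1 / ((k : ℝ) + 1) := ⟨_, rfl⟩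
  have he0 : 0 < e := by rw [he]; exact eps_pos k
  have he1 : e ≤ 1 := by rw [he]; exact eps_le k
  rw [← he] at hmem ⊢
  have h3 := H3_pos hf0 hd
  have h30 : (0 : ℝ) < H3 (tr f) := by linarith
  have hRd : (0 : ℝ) < Rd (Fv u v (tr f)).natAbs := by exact_mod_cast Rd_pos _
  have hop : (0 : ℝ) < op (dsc (tr f).1 (tr f).2.1 (tr f).2.2).natAbs := by
    exact_mod_cast op_pos _
  have hsq : (0 : ℝ) < Real.sqrt (op (dsc (tr f).1 (tr f).2.1 (tr f).2.2).natAbs) :=
    Real.sqrt_pos.2 hop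
  obtain ⟨B, hB⟩ : ∃ B : ℝ, B = 1 / ((Rd (Fv u v (tr f)).natAbs : ℝ) *
      Real.sqrt (op (dsc (tr f).1 (tr f).2.1 (tr f).2.2).natAbs)) * (H3 (tr f) : ℝ) ^ (-e) :=
    ⟨_, rfl⟩
  have hB0 : 0 < B := by rw [hB]; positivity
  have hlt : B < |aeval w.1 f| * ∏ p ∈ V, vv p (w.2 p) f := by
    by_contra hcon
    apply hmem
    refine ⟨hd, prim_two hirr hd, dsc_two hirr hd, ?_, ?_⟩
    · have := hv_two hd u v
      rw [this] at hh
      exact hh
    · rw [not_lt] at hcon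
      have e1 : vR (tr f).1 (tr f).2.1 (tr f).2.2 w.1 = |aeval w.1 f| := vR_two hd.le w.1
      have e2 : ∏ p ∈ V, vP p (tr f).1 (tr f).2.1 (tr f).2.2 (w.2 p) =
          ∏ p ∈ V, vv p (w.2 p) f := Finset.prod_congr rfl fun p _ => vP_two hd.le p _
      rw [e1, e2, ← hB]
      exact hcon
  have h4 := key hf0 (by omega) hB0 hlt
  have h5 : Real.log B = -Real.log (Rd (Fv u v (tr f)).natAbs) -
      Real.log (op (dsc (tr f).1 (tr f).2.1 (tr f).2.2).natAbs) / 2 -
        e * Real.log (H3 (tr f)) := by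
    rw [hB, one_div, Real.log_mul (by positivity) (by positivity), Real.log_inv,
      Real.log_mul hRd.ne' hsq.ne', Real.log_rpow h30, Real.log_sqrt hop.le]
    ring
  have h6 := log_Rd_le S u v (f := f) (by omega)
  rw [hv_two hd] at h6
  have h7 := log_op_le hirr hd hx
  have h8 : Real.log (H3 (tr f)) ≤ Real.log 4 + Real.log (M f) := by
    have h9 := Real.log_le_log h30 (H3_le hd)
    have hM := M_one hf0
    rwa [Real.log_mul (by norm_num) (by linarith)] at h9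
  have hlog4 : Real.log 4 = 2 * Real.log 2 := by
    rw [show (4 : ℝ) = 2 ^ 2 by norm_num, Real.log_pow]; norm_num
  have hlog2 := Real.log_nonneg one_le_two
  have h9 := height_mul (f := f) (by omega)
  have h10 := height_nonneg hf0
  have h11 := mul_le_mul_of_nonneg_left h8 he0.le
  have h12 := sumlog_nonneg S
  rw [hd] at h4 h6 h9
  push_cast at h4 h6 h9
  change Real.log (Rd (Fv u v (tr f)).natAbs) ≤ _ at h6
  change Real.log (op (dsc (tr f).1 (tr f).2.1 (tr f).2.2).natAbs) ≤ _ at h7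
  rw [h5, ← h9] at h4
  rw [← h9, hlog4] at h11
  have h13 : e * (2 * Real.log 2) ≤ 2 * Real.log 2 := by
    have := mul_le_mul_of_nonneg_right he1 (show (0 : ℝ) ≤ 2 * Real.log 2 by linarith)
    linarith
  have h14 : e * (2 * Real.log 2 + 2 * height f) = e * (2 * Real.log 2) + 2 * (e * height f) := by
    ring
  have h15 : (2 + e) * height f = 2 * height f + e * height f := by ring
  rw [h14] at h11
  rw [h15]
  linarith

/-- the quadratic case of (2) -/
lemma law2_two {V : Finset Nat.Primes} {w : ℝ × ZHat} (S : Finset ℕ) (u v u' v' : ℤ)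
    (k : ℕ) {f : ℤ[X]} (hirr : Irreducible f)
    (hd : f.natDegree = 2) (hh : hv u v f ≠ 0) (hh' : hv u' v' f ≠ 0)
    (hmem : f ∉ {f : ℤ[X] | f.natDegree = 2 ∧ tr f ∈ T2set V u v u' v' (1 / ((k : ℝ) + 1)) w}) :
    prox V w f + (height f - N1 S u v f) + (height f - N1 S u' v' f) ≤
      (3 + 1 / ((k : ℝ) + 1)) * height f + (∑ p ∈ S, Real.log (p : ℝ) + Real.log 2 + L w) := by
  have hf0 := hirr.ne_zero
  obtain ⟨e, he⟩ : ∃ e : ℝ, e = 1 / ((k : ℝ) + 1) := ⟨_, rfl⟩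
  have he0 : 0 < e := by rw [he]; exact eps_pos k
  have he1 : e ≤ 1 := by rw [he]; exact eps_le k
  rw [← he] at hmem ⊢
  have h3 := H3_pos hf0 hd
  have h30 : (0 : ℝ) < H3 (tr f) := by linarith
  have hRd : (0 : ℝ) < Rd (Fv u v (tr f)).natAbs := by exact_mod_cast Rd_pos _
  have hRd' : (0 : ℝ) < Rd (Fv u' v' (tr f)).natAbs := by exact_mod_cast Rd_pos _
  obtain ⟨B, hB⟩ : ∃ B : ℝ, B = 1 / ((Rd (Fv u v (tr f)).natAbs : ℝ) *
      Rd (Fv u' v' (tr f)).natAbs) * (H3 (tr f) : ℝ) ^ (-e) :=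
    ⟨_, rfl⟩
  have hB0 : 0 < B := by rw [hB]; positivity
  have hlt : B < |aeval w.1 f| * ∏ p ∈ V, vv p (w.2 p) f := by
    by_contra hcon
    apply hmem
    refine ⟨hd, prim_two hirr hd, ?_, dsc_two hirr hd, ?_, ?_, ?_⟩
    · change f.coeff 2 ≠ 0
      rw [← hd, coeff_natDegree, leadingCoeff_ne_zero]; exact hf0
    · have := hv_two hd u v
      rw [this] at hh
      exact hh
    · have := hv_two hd u' v'
      rw [this] at hh'
      exact hh'
    · rw [not_lt] at hcon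
      have e1 : vR (tr f).1 (tr f).2.1 (tr f).2.2 w.1 = |aeval w.1 f| := vR_two hd.le w.1
      have e2 : ∏ p ∈ V, vP p (tr f).1 (tr f).2.1 (tr f).2.2 (w.2 p) =
          ∏ p ∈ V, vv p (w.2 p) f := Finset.prod_congr rfl fun p _ => vP_two hd.le p _
      rw [e1, e2, ← hB]
      exact hcon
  have h4 := key hf0 (by omega) hB0 hlt
  have h5 : Real.log B = -Real.log (Rd (Fv u v (tr f)).natAbs) -
      Real.log (Rd (Fv u' v' (tr f)).natAbs) - e * Real.log (H3 (tr f)) := by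
    rw [hB, one_div, Real.log_mul (by positivity) (by positivity), Real.log_inv,
      Real.log_mul hRd.ne' hRd'.ne', Real.log_rpow h30]
    ring
  have h6 := log_Rd_le S u v (f := f) (by omega)
  have h6' := log_Rd_le S u' v' (f := f) (by omega)
  rw [hv_two hd] at h6 h6'
  have h8 : Real.log (H3 (tr f)) ≤ Real.log 4 + Real.log (M f) := by
    have h9 := Real.log_le_log h30 (H3_le hd)
    have hM := M_one hf0
    rwa [Real.log_mul (by norm_num) (by linarith)] at h9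
  have hlog4 : Real.log 4 = 2 * Real.log 2 := by
    rw [show (4 : ℝ) = 2 ^ 2 by norm_num, Real.log_pow]; norm_num
  have hlog2 := Real.log_nonneg one_le_two
  have h9 := height_mul (f := f) (by omega)
  have h10 := height_nonneg hf0
  have h11 := mul_le_mul_of_nonneg_left h8 he0.le
  have h12 := sumlog_nonneg S
  rw [hd] at h4 h6 h6' h9
  push_cast at h4 h6 h6' h9
  change Real.log (Rd (Fv u v (tr f)).natAbs) ≤ _ at h6
  change Real.log (Rd (Fv u' v' (tr f)).natAbs) ≤ _ at h6'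
  rw [h5, ← h9] at h4
  rw [← h9, hlog4] at h11
  have h13 : e * (2 * Real.log 2) ≤ 2 * Real.log 2 := by
    have := mul_le_mul_of_nonneg_right he1 (show (0 : ℝ) ≤ 2 * Real.log 2 by linarith)
    linarith
  have h14 : e * (2 * Real.log 2 + 2 * height f) = e * (2 * Real.log 2) + 2 * (e * height f) := by
    ring
  have h15 : (3 + e) * height f = 3 * height f + e * height f := by ring
  rw [h14] at h11
  rw [h15]
  linarith

/-- the linear case of (2) -/
lemma law2_one {V : Finset Nat.Primes} {w : ℝ × ZHat} (S : Finset ℕ) (u v u' v' : ℤ)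
    (k : ℕ) {f : ℤ[X]} (hirr : Irreducible f)
    (hd : f.natDegree = 1) (hh : hv u v f ≠ 0) (hh' : hv u' v' f ≠ 0)
    (hmem : f ∉ {f : ℤ[X] | f.natDegree = 1 ∧ pr f ∈ L2set V u v u' v' (1 / ((k : ℝ) + 1)) w}) :
    prox V w f + (height f - N1 S u v f) + (height f - N1 S u' v' f) ≤
      (2 + 1 / ((k : ℝ) + 1)) * height f +
        (2 * ∑ p ∈ S, Real.log (p : ℝ) + Real.log 2 + L w) := by
  have hf0 := hirr.ne_zero
  obtain ⟨e, he⟩ : ∃ e : ℝ, e = 1 / ((k : ℝ) + 1) := ⟨_, rfl⟩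
  have he0 : 0 < e := by rw [he]; exact eps_pos k
  have he1 : e ≤ 1 := by rw [he]; exact eps_le k
  rw [← he] at hmem ⊢
  have h3 := H2_pos hf0 hd
  have h30 : (0 : ℝ) < H2 (pr f) := by linarith
  have hRd : (0 : ℝ) < Rd (Lv u v (pr f)).natAbs := by exact_mod_cast Rd_pos _
  have hRd' : (0 : ℝ) < Rd (Lv u' v' (pr f)).natAbs := by exact_mod_cast Rd_pos _
  obtain ⟨B, hB⟩ : ∃ B : ℝ, B = 1 / ((Rd (Lv u v (pr f)).natAbs : ℝ) *
      Rd (Lv u' v' (pr f)).natAbs) * (H2 (pr f) : ℝ) ^ (1 - e) :=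
    ⟨_, rfl⟩
  have hB0 : 0 < B := by rw [hB]; positivity
  have hlt : B < |aeval w.1 f| * ∏ p ∈ V, vv p (w.2 p) f := by
    by_contra hcon
    apply hmem
    refine ⟨hd, cop_one hirr hd, ?_, ?_, ?_⟩
    · have := hv_one hd u v
      rw [this] at hh
      exact hh
    · have := hv_one hd u' v'
      rw [this] at hh'
      exact hh'
    · rw [not_lt] at hcon
      have e1 : |((pr f).1 : ℝ) * w.1 + (pr f).2| = |aeval w.1 f| := by
        rw [aeval_one' f hd.le]; rfl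
      have e2 : ∏ p ∈ V, lP p (pr f).1 (pr f).2 (w.2 p) =
          ∏ p ∈ V, vv p (w.2 p) f := Finset.prod_congr rfl fun p _ => lP_one hd.le p _
      rw [e1, e2, ← hB]
      exact hcon
  have h4 := key hf0 (by omega) hB0 hlt
  have h5 : Real.log B = -Real.log (Rd (Lv u v (pr f)).natAbs) -
      Real.log (Rd (Lv u' v' (pr f)).natAbs) + (1 - e) * Real.log (H2 (pr f)) := by
    rw [hB, one_div, Real.log_mul (by positivity) (by positivity), Real.log_inv,
      Real.log_mul hRd.ne' hRd'.ne', Real.log_rpow h30]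
    ring
  have h6 := log_Rd_le S u v (f := f) (by omega)
  have h6' := log_Rd_le S u' v' (f := f) (by omega)
  rw [hv_one hd] at h6 h6'
  have h8 : Real.log (M f) ≤ Real.log 2 + Real.log (H2 (pr f)) := by
    have hM := M_one hf0
    have h9 := Real.log_le_log (by linarith) (M_le_H2 hd)
    change Real.log (M f) ≤ Real.log (2 * (H2 (pr f) : ℝ)) at h9
    rwa [Real.log_mul (by norm_num) h30.ne'] at h9
  have hlog2 := Real.log_nonneg one_le_two
  have h9 := height_mul (f := f) (by omega)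
  have h10 := height_nonneg hf0
  have h11 := mul_le_mul_of_nonneg_left h8 (show (0 : ℝ) ≤ 1 - e by linarith)
  have h12 := sumlog_nonneg S
  rw [hd] at h4 h6 h6' h9
  push_cast at h4 h6 h6' h9
  change Real.log (Rd (Lv u v (pr f)).natAbs) ≤ _ at h6
  change Real.log (Rd (Lv u' v' (pr f)).natAbs) ≤ _ at h6'
  rw [h5, ← h9] at h4
  rw [← h9] at h11
  have h13 : e * Real.log 2 ≥ 0 := by positivity
  have h14 : (1 - e) * (Real.log 2 + Real.log (H2 (pr f))) = Real.log 2 - e * Real.log 2 +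
      (1 - e) * Real.log (H2 (pr f)) := by ring
  have h15 : (2 + e) * height f = 2 * height f + e * height f := by ring
  have h16 : (1 - e) * (1 * height f) = height f - e * height f := by ring
  rw [h14, h16] at h11
  rw [h15]
  linarith

theorem law2 {V : Finset Nat.Primes} {w : ℝ × ZHat} (hG : Good V w) : Law2 V w := by
  intro S u v u' v' hdet ε hε
  obtain ⟨k, hk⟩ := exists_nat_one_div_lt hε
  have hF := (fin_tr (hG.t2 u v u' v' hdet k)).union (fin_pr (hG.l2 u v u' v' hdet k))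
  obtain ⟨C, hC⟩ := absorb (P := fun f x => IsPt f x ∧ hv u v f ≠ 0 ∧ hv u' v' f ≠ 0)
    (exc := fun f => prox V w f + (height f - N1 S u v f) + (height f - N1 S u' v' f) -
      ((f.natDegree : ℝ) + 1 + ε) * height f) (g := fun _ => 0) (fun _ => le_rfl) hF
    (C₀ := 2 * ∑ p ∈ S, Real.log (p : ℝ) + Real.log 2 + L w) (by
      rintro f x ⟨⟨hirr, hd1, hd2, hx⟩, hh, hh'⟩ hmem
      rw [Set.mem_union, not_or] at hmem
      have h0 := height_nonneg hirr.ne_zero
      have h1 : (1 / ((k : ℝ) + 1)) * height f ≤ ε * height f :=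
        mul_le_mul_of_nonneg_right hk.le h0
      have h2 := sumlog_nonneg S
      rcases (by omega : f.natDegree = 1 ∨ f.natDegree = 2) with hd | hd
      · have h3 := law2_one (V := V) (w := w) S u v u' v' k hirr hd hh hh' hmem.2
        simp only [hd]
        push_cast
        linarith
      · have h3 := law2_two (V := V) (w := w) S u v u' v' k hirr hd hh hh' hmem.1
        simp only [hd]
        push_cast
        linarith)
  refine ⟨C, fun f x hx hh hh' => ?_⟩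
  have h := hC f x ⟨hx, hh, hh'⟩
  linarith

/-- the truncated counting function of a linear polynomial is at most the height -/
lemma N1_le {S : Finset ℕ} {u v : ℤ} {f : ℤ[X]} (hf : f ≠ 0) (hd : f.natDegree = 1)
    (hh : hv u v f ≠ 0) : N1 S u v f ≤ height f + Real.log 2 +
      Real.log (|(u : ℝ)| + |(v : ℝ)|) := by
  have hM := M_one hf
  have h9 := height_mul (f := f) (by omega)
  rw [hd] at h9
  push_cast at h9
  rw [one_mul] at h9
  have h1 : N1 S u v f ≤ Real.log (Rd (hv u v f).natAbs) := by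
    have e1 : Rd (hv u v f).natAbs = Q273.TR.rad (hv u v f) := rfl
    rw [e1, Q273.TR.log_rad]
    unfold N1
    rw [hd, Nat.cast_one, div_one]
    exact Finset.sum_le_sum_of_subset_of_nonneg Finset.sdiff_subset
      fun p _ _ => Real.log_natCast_nonneg p
  have hn : (hv u v f).natAbs ≠ 0 := Int.natAbs_ne_zero.2 hh
  have h2 : (Rd (hv u v f).natAbs : ℝ) ≤ |((hv u v f : ℤ) : ℝ)| := by
    rw [← natAbs_cast]
    exact_mod_cast Nat.le_of_dvd (Nat.pos_of_ne_zero hn) (Nat.prod_primeFactors_dvd _)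
  have h3 : |((hv u v f : ℤ) : ℝ)| ≤ (|(u : ℝ)| + |(v : ℝ)|) * (2 * M f) := by
    rw [hv_one hd]
    unfold Lv
    push_cast
    have h4 := coeff_le f 1
    have h5 := coeff_le f 0
    rw [hd] at h4 h5
    norm_num at h4 h5
    calc |(f.coeff 1 : ℝ) * u + f.coeff 0 * v| ≤ |(f.coeff 1 : ℝ) * u| + |(f.coeff 0 : ℝ) * v| :=
          abs_add_le _ _
      _ = |(f.coeff 1 : ℝ)| * |(u : ℝ)| + |(f.coeff 0 : ℝ)| * |(v : ℝ)| := by
          rw [abs_mul, abs_mul]
      _ ≤ (2 * M f) * |(u : ℝ)| + (2 * M f) * |(v : ℝ)| :=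
          add_le_add (mul_le_mul_of_nonneg_right h4 (abs_nonneg _))
            (mul_le_mul_of_nonneg_right h5 (abs_nonneg _))
      _ = (|(u : ℝ)| + |(v : ℝ)|) * (2 * M f) := by ring
  have hpos : (0 : ℝ) < Rd (hv u v f).natAbs := by exact_mod_cast Rd_pos _
  have h4 := Real.log_le_log hpos (h2.trans h3)
  have h5 : 0 < |(u : ℝ)| + |(v : ℝ)| := by
    by_contra hcon
    have h6 : (|(u : ℝ)| + |(v : ℝ)|) * (2 * M f) ≤ 0 :=
      mul_nonpos_of_nonpos_of_nonneg (not_lt.1 hcon) (by linarith)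
    linarith [h2.trans h3]
  rw [Real.log_mul h5.ne' (by positivity), Real.log_mul (by norm_num) (by linarith)] at h4
  linarith

theorem law1 {V : Finset Nat.Primes} {w : ℝ × ZHat} (hG : Good V w) : Law1 V w := by
  intro S u v huv ε hε
  obtain ⟨k, hk⟩ := exists_nat_one_div_lt hε
  have hF := fin_tr (hG.t1 u v huv k)
  obtain ⟨C, hC⟩ := absorb (P := fun f x => IsPt f x ∧ f.natDegree = 2 ∧ hv u v f ≠ 0)
    (exc := fun f => prox V w f + (height f - N1 S u v f) -
      (2 + ε) * height f) (g := fun x => logDisc x / 2)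
    (fun x => by have := logDisc_nonneg x; positivity) hF
    (C₀ := ∑ p ∈ S, Real.log (p : ℝ) + Real.log 2 + L w) (by
      rintro f x ⟨⟨hirr, hd1, hd2, hx⟩, hd, hh⟩ hmem
      have h0 := height_nonneg hirr.ne_zero
      have h1 : (1 / ((k : ℝ) + 1)) * height f ≤ ε * height f :=
        mul_le_mul_of_nonneg_right hk.le h0
      have h3 := law1_two hG S u v huv k hirr hd hx hh hmem
      linarith)
  have hne : u * u + v * v ≠ 0 := by
    intro h0
    have h1 : u = 0 := by nlinarith [mul_self_nonneg u, mul_self_nonneg v]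
    have h2 : v = 0 := by nlinarith [mul_self_nonneg u, mul_self_nonneg v]
    rw [h1, h2] at huv
    exact not_isCoprime_zero_zero huv
  obtain ⟨Ca, hCa⟩ := law2 hG S u v (-v) u (by
    intro h; apply hne; linarith) ε hε
  obtain ⟨Cb, hCb⟩ := law2 hG S u v (u - v) (u + v) (by
    intro h; apply hne; linarith) ε hε
  obtain ⟨Da, hDa⟩ : ∃ Da : ℝ, Da = Real.log 2 + Real.log (|((-v : ℤ) : ℝ)| + |(u : ℝ)|) :=
    ⟨_, rfl⟩
  obtain ⟨Db, hDb⟩ : ∃ Db : ℝ, Db = Real.log 2 +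
    Real.log (|((u - v : ℤ) : ℝ)| + |((u + v : ℤ) : ℝ)|) := ⟨_, rfl⟩
  refine ⟨|C| + |Ca| + |Cb| + |Da| + |Db|, fun f x hx hh => ?_⟩
  have a1 := le_abs_self C
  have a2 := le_abs_self Ca
  have a3 := le_abs_self Cb
  have a4 := le_abs_self Da
  have a5 := le_abs_self Db
  have b1 := abs_nonneg C
  have b2 := abs_nonneg Ca
  have b3 := abs_nonneg Cb
  have b4 := abs_nonneg Da
  have b5 := abs_nonneg Db
  have hl := logDisc_nonneg x
  obtain ⟨hirr, hd1, hd2, hx0⟩ := hx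
  rcases (by omega : f.natDegree = 1 ∨ f.natDegree = 2) with hd | hd
  · have hf0 := hirr.ne_zero
    by_cases hz : hv (-v) u f = 0
    · have hz' : hv (u - v) (u + v) f ≠ 0 := by
        intro h0
        apply hh
        rw [hv_one hd] at hz h0 ⊢
        unfold Lv at hz h0 ⊢
        simp only at hz h0 ⊢
        linear_combination h0 - hz
      have h1 := hCb f x ⟨hirr, hd1, hd2, hx0⟩ hh hz'
      have h2 := N1_le (S := S) hf0 hd hz'
      rw [hd] at h1
      push_cast at h1 h2 hDb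
      have h3 : (1 + 1 + ε) * height f = (2 + ε) * height f := by ring
      rw [h3] at h1
      linarith
    · have h1 := hCa f x ⟨hirr, hd1, hd2, hx0⟩ hh hz
      have h2 := N1_le (S := S) hf0 hd hz
      rw [hd] at h1
      push_cast at h1 h2 hDa
      have h3 : (1 + 1 + ε) * height f = (2 + ε) * height f := by ring
      rw [h3] at h1
      linarith
  · have h1 := hC f x ⟨⟨hirr, hd1, hd2, hx0⟩, hd, hh⟩
    linarith

end Pool.Agent.Q223.QP
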